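import Pool.Agent.KS6_19.GF.LimitDefs

/-!
# Comparing morphisms of motives with Frobenius invariant morphisms of their realisations
-/

set_option autoImplicit false
set_option linter.unusedSectionVars false

open CategoryTheory Limits

namespace Pool.Agent.KS6_19.GF

universe v u v' u'

noncomputable section

variable {Ω : Type} [Field Ω] {T : Type u} [Category.{v} T] [Preadditive T] [Linear ℚ T]
  {E : Type u'} [Category.{v'} E] [Preadditive E] [Linear Ω E]

/-- The morphisms from `M` to `N` are compared with the morphisms of their realisations. -/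
structure Compares (Ω : Type) [Field Ω] [Linear Ω E] (S : T ⥤ E)
    (fr : ∀ M N : T, (S.obj M ⟶ S.obj N) → (S.obj M ⟶ S.obj N)) (M N : T) : Prop where
  indep : ∀ (r : ℕ) (x : Fin r → (M ⟶ N)), LinearIndependent ℚ x →
    LinearIndependent Ω fun k => S.map (x k)
  span : ∀ u : S.obj M ⟶ S.obj N, fr M N u = u →
    u ∈ Submodule.span Ω (Set.range fun f : M ⟶ N => S.map f)
  semi : ∀ u, fr M N (fr M N u - u) = fr M N u - u → fr M N u = u
  fin : ∀ u, ∃ W : Submodule Ω (S.obj M ⟶ S.obj N), FiniteDimensional Ω W ∧ u ∈ W ∧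
    ∀ w ∈ W, fr M N w ∈ W

variable {S : T ⥤ E} [S.Additive]
  {fr : ∀ M N : T, (S.obj M ⟶ S.obj N) → (S.obj M ⟶ S.obj N)}

/-- the Frobenius as a linear map -/
def IsFrob.map' (hfr : IsFrob Ω S fr) (M N : T) :
    (S.obj M ⟶ S.obj N) →ₗ[Ω] (S.obj M ⟶ S.obj N) := (hfr.lin M N).choose

theorem IsFrob.map'_apply (hfr : IsFrob Ω S fr) (M N : T) (u : S.obj M ⟶ S.obj N) :
    hfr.map' M N u = fr M N u := ((hfr.lin M N).choose_spec u).symm

theorem IsFrob.add (hfr : IsFrob Ω S fr) {M N : T} (u v : S.obj M ⟶ S.obj N) :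
    fr M N (u + v) = fr M N u + fr M N v := by
  rw [← hfr.map'_apply, map_add, hfr.map'_apply, hfr.map'_apply]

theorem IsFrob.sub (hfr : IsFrob Ω S fr) {M N : T} (u v : S.obj M ⟶ S.obj N) :
    fr M N (u - v) = fr M N u - fr M N v := by
  rw [← hfr.map'_apply, map_sub, hfr.map'_apply, hfr.map'_apply]

theorem IsFrob.smul (hfr : IsFrob Ω S fr) {M N : T} (a : Ω) (u : S.obj M ⟶ S.obj N) :
    fr M N (a • u) = a • fr M N u := by
  rw [← hfr.map'_apply, map_smul, hfr.map'_apply]

theorem IsFrob.conj (hfr : IsFrob Ω S fr) {M M' N N' : T} (a : M' ⟶ M) (b : N ⟶ N')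
    (u : S.obj M ⟶ S.obj N) : fr M' N' (S.map a ≫ u ≫ S.map b) = S.map a ≫ fr M N u ≫ S.map b := by
  rw [hfr.comp, hfr.comp, hfr.map, hfr.map]

/-- the linear map `u ↦ a ≫ u ≫ b` -/
def conjL (Ω : Type) [Field Ω] [Linear Ω E] {A A' B B' : E} (a : A' ⟶ A) (b : B ⟶ B') :
    (A ⟶ B) →ₗ[Ω] (A' ⟶ B') := (Linear.leftComp Ω B' a) ∘ₗ (Linear.rightComp Ω A b)

theorem conjL_apply {A A' B B' : E} (a : A' ⟶ A) (b : B ⟶ B') (u : A ⟶ B) :
    conjL Ω a b u = a ≫ u ≫ b := rfl

/-- retracts -/
theorem Compares.retract (hfr : IsFrob Ω S fr) {M M' N N' : T} (h : Compares Ω S fr M N)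
    (r : Retract M' M) (r' : Retract N' N) : Compares Ω S fr M' N' := by
  have hret : ∀ u : S.obj M' ⟶ S.obj N',
      S.map r.i ≫ (S.map r.r ≫ u ≫ S.map r'.i) ≫ S.map r'.r = u := by
    intro u
    have h1 : S.map r.i ≫ S.map r.r = 𝟙 _ := by rw [← S.map_comp, r.retract, S.map_id]
    have h2 : S.map r'.i ≫ S.map r'.r = 𝟙 _ := by rw [← S.map_comp, r'.retract, S.map_id]
    rw [Category.assoc, Category.assoc, h2, Category.comp_id, ← Category.assoc, h1,
      Category.id_comp]
  have hret' : ∀ f : M' ⟶ N', r.i ≫ (r.r ≫ f ≫ r'.i) ≫ r'.r = f := by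
    intro f
    rw [Category.assoc, Category.assoc, r'.retract, Category.comp_id, ← Category.assoc, r.retract,
      Category.id_comp]
  constructor
  · intro n x hx
    have h1 : LinearIndependent ℚ fun k => r.r ≫ x k ≫ r'.i := by
      have h2 : LinearIndependent ℚ ((conjL ℚ r.r r'.i) ∘ x) := by
        apply hx.map'
        rw [LinearMap.ker_eq_bot]
        intro f g hfg
        rw [← hret' f, ← hret' g]
        change r.i ≫ (conjL ℚ r.r r'.i f) ≫ r'.r = r.i ≫ (conjL ℚ r.r r'.i g) ≫ r'.r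
        rw [hfg]
      exact h2
    have h2 := h.indep n _ h1
    have h3 : (fun k => S.map (r.r ≫ x k ≫ r'.i)) =
        (conjL Ω (S.map r.r) (S.map r'.i)) ∘ fun k => S.map (x k) := by
      funext k
      simp only [Function.comp_apply, conjL_apply, S.map_comp]
    rw [h3] at h2
    exact h2.of_comp _
  · intro u hu
    have h1 : fr M N (S.map r.r ≫ u ≫ S.map r'.i) = S.map r.r ≫ u ≫ S.map r'.i := by
      rw [hfr.conj, hu]
    have h2 := h.span _ h1
    have h3 : ∀ v ∈ Submodule.span Ω (Set.range fun f : M ⟶ N => S.map f),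
        conjL Ω (S.map r.i) (S.map r'.r) v ∈
          Submodule.span Ω (Set.range fun f : M' ⟶ N' => S.map f) := by
      intro v hv
      induction hv using Submodule.span_induction with
      | mem v hv =>
        obtain ⟨f, rfl⟩ := hv
        refine Submodule.subset_span ⟨r.i ≫ f ≫ r'.r, ?_⟩
        simp only [conjL_apply, S.map_comp]
      | zero => rw [map_zero]; exact Submodule.zero_mem _
      | add a b _ _ ha hb => rw [map_add]; exact Submodule.add_mem _ ha hb
      | smul c a _ ha => rw [map_smul]; exact Submodule.smul_mem _ _ ha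
    have h4 := h3 _ h2
    rwa [conjL_apply, hret] at h4
  · intro u hu
    have h1 : fr M N (fr M N (S.map r.r ≫ u ≫ S.map r'.i) - S.map r.r ≫ u ≫ S.map r'.i) =
        fr M N (S.map r.r ≫ u ≫ S.map r'.i) - S.map r.r ≫ u ≫ S.map r'.i := by
      have h2 : fr M N (S.map r.r ≫ u ≫ S.map r'.i) - S.map r.r ≫ u ≫ S.map r'.i =
          S.map r.r ≫ (fr M' N' u - u) ≫ S.map r'.i := by
        rw [hfr.conj, Preadditive.sub_comp, Preadditive.comp_sub]
      rw [h2, hfr.conj, hu]
    have h2 := h.semi _ h1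
    rw [hfr.conj] at h2
    rw [← hret (fr M' N' u), h2, hret]
  · intro u
    obtain ⟨W, hW, huW, hfW⟩ := h.fin (S.map r.r ≫ u ≫ S.map r'.i)
    refine ⟨W.map (conjL Ω (S.map r.i) (S.map r'.r)), inferInstance,
      ⟨_, huW, by rw [conjL_apply, hret]⟩, ?_⟩
    rintro _ ⟨w, hw, rfl⟩
    exact ⟨fr M N w, hfW w hw, by rw [conjL_apply, conjL_apply, hfr.conj]⟩

theorem Compares.faithful {M N : T} (h : Compares Ω S fr M N) {f : M ⟶ N} (hf : S.map f = 0) :
    f = 0 := by
  by_contra hf0
  have h1 : LinearIndependent ℚ (fun _ : Fin 1 => f) := by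
    rw [linearIndependent_unique_iff]
    exact hf0
  have h2 := h.indep 1 _ h1
  rw [linearIndependent_unique_iff] at h2
  exact h2 hf

theorem Compares.hom_zero {M N : T} (h : Compares Ω S fr M N)
    (h0 : ∀ u : S.obj M ⟶ S.obj N, fr M N u = u → u = 0) (hfr : IsFrob Ω S fr)
    (f : M ⟶ N) : f = 0 := h.faithful (h0 _ (hfr.map M N f))

/-- a semisimple eigenvalue zero. -/
theorem split_of_semi' {V : Type*} [AddCommGroup V] [Module Ω V] [FiniteDimensional Ω V]
    (N : V →ₗ[Ω] V) (h : ∀ x, N (N x) = 0 → N x = 0) (x : V) : ∃ y z, N y = 0 ∧ x = y + N z := by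
  have hdis : Disjoint (LinearMap.ker N) (LinearMap.range N) := by
    rw [Submodule.disjoint_def]
    rintro z hz ⟨w, rfl⟩
    exact h w hz
  have hsup : LinearMap.ker N ⊔ LinearMap.range N = ⊤ := by
    apply Submodule.eq_top_of_finrank_eq
    have h1 := Submodule.finrank_sup_add_finrank_inf_eq (LinearMap.ker N) (LinearMap.range N)
    rw [hdis.eq_bot, finrank_bot, add_zero] at h1
    have h2 := LinearMap.finrank_range_add_finrank_ker N
    omega
  have hmem : x ∈ LinearMap.ker N ⊔ LinearMap.range N := by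
    rw [hsup]
    trivial
  obtain ⟨y, hy, z, ⟨w, rfl⟩, rfl⟩ := Submodule.mem_sup.1 hmem
  exact ⟨y, w, hy, rfl⟩

theorem map_rat [CharZero Ω] {M N : T} (a : ℚ) (y : M ⟶ N) :
    S.map (a • y) = (a : Ω) • S.map y := by
  let : Module ℚ (S.obj M ⟶ S.obj N) := Module.compHom _ (algebraMap ℚ Ω)
  exact map_rat_smul (S.mapAddHom : (M ⟶ N) →+ (S.obj M ⟶ S.obj N)) a y

/-- rational descent of linear relations. -/
theorem Compares.descend [CharZero Ω] {M N : T} (h : Compares Ω S fr M N) {A : Type*} [AddCommGroup A]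
    [Module ℚ A] (θ : A →ₗ[ℚ] (M ⟶ N)) (f : M ⟶ N)
    (hf : S.map f ∈ Submodule.span Ω (Set.range fun a : A => S.map (θ a))) : ∃ a, θ a = f := by
  classical
  by_contra hcon
  -- finitely many elements
  obtain ⟨t, ht, hft⟩ := Submodule.mem_span_finite_of_mem_span hf
  have hg0 : ∀ x : S.obj M ⟶ S.obj N, x ∈ t → ∃ a, S.map (θ a) = x := fun x hx => ht hx
  choose! g hg using hg0
  let W : Submodule ℚ (M ⟶ N) := Submodule.span ℚ ((t.image fun x => θ (g x) : Finset (M ⟶ N)) : Set (M ⟶ N))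
  have hWr : W ≤ LinearMap.range θ := by
    rw [Submodule.span_le]
    intro y hy
    rw [Finset.mem_coe, Finset.mem_image] at hy
    obtain ⟨x, _, rfl⟩ := hy
    exact ⟨g x, rfl⟩
  have hfW : f ∉ W := fun hfW => hcon (hWr hfW)
  have hWfin : FiniteDimensional ℚ W := FiniteDimensional.span_finset ℚ _
  let b := Module.finBasis ℚ W
  have hb : LinearIndependent ℚ (fun k => (b k : M ⟶ N)) :=
    b.linearIndependent.map' W.subtype W.ker_subtype
  have hcons : LinearIndependent ℚ (Fin.cons f (fun k => (b k : M ⟶ N)) : Fin (_ + 1) → (M ⟶ N)) := by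
    rw [linearIndependent_finCons]
    refine ⟨hb, ?_⟩
    intro hmem
    apply hfW
    have h1 : Submodule.span ℚ (Set.range fun k => (b k : M ⟶ N)) ≤ W := by
      rw [Submodule.span_le]
      rintro _ ⟨k, rfl⟩
      exact (b k).2
    exact h1 hmem
  have h2 := h.indep _ _ hcons
  have h3 : (fun k => S.map ((Fin.cons f (fun k => (b k : M ⟶ N)) : Fin (_ + 1) → (M ⟶ N)) k)) =
      (Fin.cons (S.map f) (fun k => S.map (b k : M ⟶ N)) : Fin (_ + 1) → (S.obj M ⟶ S.obj N)) := by
    funext k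
    refine Fin.cases ?_ (fun k => ?_) k
    · rfl
    · rfl
  rw [h3, linearIndependent_finCons] at h2
  apply h2.2
  have h4 : Submodule.span Ω (t : Set (S.obj M ⟶ S.obj N)) ≤
      Submodule.span Ω (Set.range fun k => S.map (b k : M ⟶ N)) := by
    rw [Submodule.span_le]
    intro x hx
    have h5 : S.map (θ (g x)) = x := hg x hx
    rw [SetLike.mem_coe, ← h5]
    have h6 : θ (g x) ∈ W := Submodule.subset_span (by
      rw [Finset.mem_coe, Finset.mem_image]
      exact ⟨x, hx, rfl⟩)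
    have h7 : (θ (g x)) = ∑ k, (b.repr ⟨θ (g x), h6⟩ k) • (b k : M ⟶ N) := by
      have h8 := b.sum_repr ⟨θ (g x), h6⟩
      have h9 := congrArg (W.subtype) h8
      rw [map_sum] at h9
      simpa using h9.symm
    rw [h7, Functor.map_sum]
    refine Submodule.sum_mem _ fun k _ => ?_
    rw [map_rat (Ω := Ω)]
    exact Submodule.smul_mem _ _ (Submodule.subset_span ⟨k, rfl⟩)
  exact h4 hft

/-- **Regularity**: a morphism whose realisation is regular is regular. -/
theorem regular [CharZero Ω] (hfr : IsFrob Ω S fr) {M N : T} (h : Compares Ω S fr M N)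
    (h' : Compares Ω S fr N M) (f : M ⟶ N) (hf : ∃ g, S.map f ≫ g ≫ S.map f = S.map f) :
    ∃ g : N ⟶ M, f ≫ g ≫ f = f := by
  obtain ⟨g₀, hg₀⟩ := hf
  obtain ⟨W, hW, hgW, hfW⟩ := h'.fin g₀
  -- the operator `fr - 1` on `W`
  let Nl : W →ₗ[Ω] W := ((hfr.map' N M).restrict (p := W) (q := W) fun w hw => by
    rw [hfr.map'_apply]
    exact hfW w hw) - LinearMap.id
  have hNl : ∀ w : W, ((Nl w : W) : S.obj N ⟶ S.obj M) = fr N M w - w := by
    intro w
    rw [← hfr.map'_apply]
    rfl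
  have hsemi : ∀ w : W, Nl (Nl w) = 0 → Nl w = 0 := by
    intro w hw
    apply Subtype.ext
    rw [hNl, ZeroMemClass.coe_zero, sub_eq_zero]
    apply h'.semi
    have h1 := congrArg (Subtype.val) hw
    rw [hNl, hNl, ZeroMemClass.coe_zero, sub_eq_zero] at h1
    exact h1
  obtain ⟨y, z, hy, hyz⟩ := split_of_semi' Nl hsemi ⟨g₀, hgW⟩
  have hy1 : fr N M (y : S.obj N ⟶ S.obj M) = y := by
    have h1 := congrArg (Subtype.val) hy
    rw [hNl, ZeroMemClass.coe_zero, sub_eq_zero] at h1
    exact h1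
  have hg : g₀ = y + (fr N M z - z) := by
    have h1 := congrArg (Subtype.val) hyz
    rw [Submodule.coe_add, hNl] at h1
    exact h1
  -- `y` solves the equation too
  have hSy : S.map f ≫ (y : S.obj N ⟶ S.obj M) ≫ S.map f = S.map f := by
    have h1 : S.map f ≫ (y : S.obj N ⟶ S.obj M) ≫ S.map f +
        (fr M N (S.map f ≫ (z : S.obj N ⟶ S.obj M) ≫ S.map f) -
          S.map f ≫ (z : S.obj N ⟶ S.obj M) ≫ S.map f) = S.map f := by
      conv_rhs => rw [← hg₀, hg]
      rw [hfr.conj]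
      simp only [Preadditive.add_comp, Preadditive.comp_add, Preadditive.sub_comp,
        Preadditive.comp_sub]
    have h2 : fr M N (S.map f ≫ (y : S.obj N ⟶ S.obj M) ≫ S.map f) =
        S.map f ≫ (y : S.obj N ⟶ S.obj M) ≫ S.map f := by
      rw [hfr.conj, hy1]
    have h3 : fr M N (S.map f ≫ (z : S.obj N ⟶ S.obj M) ≫ S.map f) -
          S.map f ≫ (z : S.obj N ⟶ S.obj M) ≫ S.map f =
        S.map f - S.map f ≫ (y : S.obj N ⟶ S.obj M) ≫ S.map f := eq_sub_of_add_eq' h1
    have h4 := h.semi (S.map f ≫ (z : S.obj N ⟶ S.obj M) ≫ S.map f) (by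
      rw [h3, hfr.sub, h2, hfr.map])
    rw [h4, sub_self] at h3
    exact (sub_eq_zero.1 h3.symm).symm
  -- rational solution
  have hspan := h'.span _ hy1
  let θ : (N ⟶ M) →ₗ[ℚ] (M ⟶ N) := conjL ℚ f f
  obtain ⟨g, hg⟩ := h.descend θ f (by
    rw [← hSy]
    have h3 : ∀ v ∈ Submodule.span Ω (Set.range fun g : N ⟶ M => S.map g),
        S.map f ≫ v ≫ S.map f ∈ Submodule.span Ω (Set.range fun g : N ⟶ M => S.map (θ g)) := by
      intro v hv
      induction hv using Submodule.span_induction with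
      | mem v hv =>
        obtain ⟨g, rfl⟩ := hv
        refine Submodule.subset_span ⟨g, ?_⟩
        simp only [θ, conjL_apply, S.map_comp]
      | zero => rw [zero_comp, comp_zero]; exact Submodule.zero_mem _
      | add a b _ _ ha hb =>
        rw [Preadditive.add_comp, Preadditive.comp_add]; exact Submodule.add_mem _ ha hb
      | smul c a _ ha =>
        rw [Linear.smul_comp, Linear.comp_smul]; exact Submodule.smul_mem _ _ ha
    exact h3 _ hspan)
  exact ⟨g, hg⟩

end

end Pool.Agent.KS6_19.GF
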