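import Pool.Agent.KS6_19.GF.CycTB

/-!
# The conjecture of Tate and Beilinson for smooth projective schemes
-/

set_option autoImplicit false
set_option linter.unusedSectionVars false

namespace Pool.Agent.KS6_19.GF.Bun

open Pool.Agent.W495.FM Module Polynomial

noncomputable section

variable {Ω : Type} [Field Ω] [CharZero Ω] {q D : ℕ} {C : CycData Ω} {V : Type}
  {T : Homology Ω V} {X : V}

/-- The degenerate case: no motivic homology and no invariants. -/
theorem tb_trivial (hH : IsHomology T) {i j : ℤ} (hM : ∀ x : T.M X i j, x = 0)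
    (hE : ∀ e : T.E X i j, T.frob X i j e = e → e = 0) :
    (∀ e, T.frob X i j e = e ↔ e ∈ Submodule.span Ω (Set.range (T.reg X i j))) ∧
    (∀ (r : ℕ) (x : Fin r → T.M X i j), LinearIndependent ℚ x →
      LinearIndependent Ω fun k => T.reg X i j (x k)) ∧
    ∀ e, T.frob X i j (T.frob X i j e - e) = T.frob X i j e - e → T.frob X i j e = e := by
  obtain ⟨φ, hφ⟩ := hH.lin X i j
  refine ⟨fun e => ⟨fun h => ?_, fun h => ?_⟩, ?_, fun e he => ?_⟩
  · rw [hE e h]
    exact Submodule.zero_mem _
  · have h1 : ∀ x : T.M X i j, T.reg X i j x = 0 := by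
      intro x
      apply hE
      exact hH.frob_reg X i j x
    have h2 : Submodule.span Ω (Set.range (T.reg X i j)) = ⊥ := by
      rw [Submodule.span_eq_bot]
      rintro _ ⟨x, rfl⟩
      exact h1 x
    rw [h2, Submodule.mem_bot] at h
    rw [h, hφ, map_zero]
  · intro r x hx
    rcases Nat.eq_zero_or_pos r with rfl | hr
    · exact linearIndependent_empty_type
    · exact absurd (hM (x ⟨0, hr⟩)) (hx.ne_zero _)
  · exact sub_eq_zero.1 (hE _ he)

theorem tb_of_tate (hH : IsHomology T) (hC : IsCyc q D C) (hq : q ≠ 0) (hT : TateFacts q C)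
    (hX : IsHomologyOf T X q D C) : TB T X := by
  intro i j
  obtain ⟨n, rfl⟩ : ∃ n : ℤ, i = 2 * D - n := ⟨2 * D - i, by ring⟩
  obtain ⟨c, rfl⟩ : ∃ c : ℤ, j = D - c := ⟨D - j, by ring⟩
  have hqΩ : (q : Ω) ≠ 0 := Nat.cast_ne_zero.2 hq
  by_cases h : n = 2 * c ∧ 0 ≤ c
  · obtain ⟨rfl, hc⟩ := h
    obtain ⟨k, rfl⟩ := Int.eq_ofNat_of_zero_le hc
    obtain ⟨f, β, hf, hf', ⟨hβ, hβ', hFr⟩, hreg⟩ := hX.chow k
    obtain ⟨L, hL⟩ := hβ
    obtain ⟨φ, hφ⟩ := hH.lin X (2 * D - 2 * (k : ℤ)) (D - k)
    have hqk : (q : Ω) ^ k ≠ 0 := pow_ne_zero _ hqΩ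
    have hinj : Function.Injective L := by
      intro a b hab
      apply hβ'.1
      rw [hL, hL, hab]
    have hker : LinearMap.ker L = ⊥ := LinearMap.ker_eq_bot.2 hinj
    have hspan : Submodule.span Ω (Set.range (C.cl k)) =
        (Submodule.span Ω (Set.range (T.reg X (2 * D - 2 * (k : ℤ)) (D - k)))).map L := by
      rw [Submodule.map_span]
      congr 1
      ext y
      constructor
      · rintro ⟨z, rfl⟩
        obtain ⟨x, rfl⟩ := hf'.2 z
        exact ⟨T.reg X _ _ x, ⟨x, rfl⟩, by rw [← hL, hreg]⟩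
      · rintro ⟨_, ⟨x, rfl⟩, rfl⟩
        exact ⟨f x, by rw [← hL, hreg]⟩
    have hinv : ∀ e, T.frob X (2 * D - 2 * (k : ℤ)) (D - k) e = e ↔
        C.Fr _ (L e) = (q : Ω) ^ k • L e := by
      intro e
      have h1 := hFr e
      rw [hL, hL] at h1
      constructor
      · intro he
        rw [he, eq_inv_smul_iff₀ hqk] at h1
        exact h1.symm
      · intro he
        apply hinj
        rw [h1, he, smul_smul, inv_mul_cancel₀ hqk, one_smul]
    refine ⟨fun e => ?_, fun r x hx => ?_, fun e he => ?_⟩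
    · rw [hinv]
      constructor
      · intro h1
        have h2 := hT.tate k (L e) h1
        rw [hspan] at h2
        obtain ⟨e', he', h3⟩ := Submodule.mem_map.1 h2
        rw [← hinj h3]
        exact he'
      · intro h1
        have h2 : L e ∈ Submodule.span Ω (Set.range (C.cl k)) := by
          rw [hspan]
          exact Submodule.mem_map_of_mem h1
        have h3 : ∀ g ∈ Submodule.span Ω (Set.range (C.cl k)), C.Fr _ g = (q : Ω) ^ k • g := by
          intro g hg
          induction hg using Submodule.span_induction with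
          | mem g hg =>
            obtain ⟨z, rfl⟩ := hg
            exact Fr_cl hC k z
          | zero => rw [map_zero, smul_zero]
          | add u v _ _ hu hv => rw [map_add, hu, hv, smul_add]
          | smul c u _ hu => rw [map_smul, hu, smul_comm]
        exact h3 _ h2
    · let fA : T.M X (2 * D - 2 * (k : ℤ)) (D - k) →+ C.CH k := AddMonoidHom.mk' f hf
      let fL : T.M X (2 * D - 2 * (k : ℤ)) (D - k) →ₗ[ℚ] C.CH k := fA.toRatLinearMap
      have hfL : ∀ x, fL x = f x := fun x => rfl
      have h1 : LinearIndependent ℚ fun a => f (x a) := by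
        have h2 := hx.map' fL (LinearMap.ker_eq_bot.2 fun a b hab => hf'.1 hab)
        exact h2
      have h2 := cl_indep hC hq hT k _ h1
      have h3 : (fun a => C.cl k (f (x a))) = L ∘ fun a => T.reg X _ _ (x a) := by
        ext a
        change _ = L (T.reg X _ _ (x a))
        rw [← hL, hreg]
      rw [h3] at h2
      exact LinearIndependent.of_comp L h2
    · rw [hinv] at he ⊢
      have h1 : ∀ e, L (T.frob X (2 * D - 2 * (k : ℤ)) (D - k) e) = ((q : Ω) ^ k)⁻¹ • C.Fr _ (L e) := by
        intro e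
        have h1 := hFr e
        rw [hL, hL] at h1
        exact h1
      have h2 : L (T.frob X (2 * D - 2 * (k : ℤ)) (D - k) e - e) =
          ((q : Ω) ^ k)⁻¹ • (C.Fr _ (L e) - (q : Ω) ^ k • L e) := by
        rw [map_sub, h1, smul_sub, smul_smul, inv_mul_cancel₀ hqk, one_smul]
      rw [h2, map_smul, smul_comm] at he
      have h3 := (smul_right_injective _ (inv_ne_zero hqk)) he
      exact hT.semi k _ h3
  · refine tb_trivial hH (fun x => ?_) (fun e he => ?_)
    · obtain ⟨f, hf, hf'⟩ := hX.motivic n c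
      have h0 : f 0 = 0 := by
        have := hf 0 0
        rw [add_zero] at this
        exact left_eq_add.1 this
      apply hf'
      rw [h0]
      by_cases hn : n = 2 * c
      · exact hC.mot_neg _ _ (by by_contra h'; exact h ⟨hn, by omega⟩) _
      · exact mot_zero hC hq hT hn _
    · rcases lt_or_ge n 0 with hn | hn
      · exact hX.neg n c hn e
      · obtain ⟨m, rfl⟩ := Int.eq_ofNat_of_zero_le hn
        obtain ⟨β, hβ, hβ', hFr⟩ := hX.coh m c
        obtain ⟨φ, hφ⟩ := hβ
        have hne : (m : ℤ) ≠ 2 * c := fun h' => h ⟨h', by omega⟩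
        have h1 := hFr e
        rw [he] at h1
        have h2 : C.Fr m (β e) = (q : Ω) ^ c • β e := by
          rw [eq_inv_smul_iff₀ (zpow_ne_zero _ hqΩ)] at h1
          exact h1.symm
        have h3 := hT.pure m c hne _ h2
        apply hβ'.1
        rw [h3, hφ, map_zero]

end

end Pool.Agent.KS6_19.GF.Bun
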