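import Pool.Agent.KS6_19.GF.CycDefs

/-!
# From the conjecture of Tate to the conjectures of Beilinson and Parshin
-/

set_option autoImplicit false
set_option linter.unusedSectionVars false

namespace Pool.Agent.KS6_19.GF.Bun

open Pool.Agent.W495.FM Module Polynomial

noncomputable section

variable {Ω : Type} [Field Ω]

/-- The conjecture of Tate for `X`, the semisimplicity of the eigenvalue `q ^ j` of the Frobenius
endomorphism on `H (2 j)`, purity, and algebraic eigenvalues. -/
structure TateFacts (q : ℕ) (C : CycData Ω) : Prop where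
  tate : ∀ j (f : C.H (2 * j)), C.Fr _ f = (q : Ω) ^ j • f →
    f ∈ Submodule.span Ω (Set.range (C.cl j))
  semi : ∀ j (f : C.H (2 * j)), C.Fr _ (C.Fr _ f - (q : Ω) ^ j • f) =
    (q : Ω) ^ j • (C.Fr _ f - (q : Ω) ^ j • f) → C.Fr _ f = (q : Ω) ^ j • f
  pure : ∀ (n : ℕ) (z : ℤ), (n : ℤ) ≠ 2 * z → ∀ f : C.H n, C.Fr n f = (q : Ω) ^ z • f → f = 0
  alg : ∀ n, ∃ P : ℤ[X], P ≠ 0 ∧ aeval (C.Fr n) P = 0

/-- a semisimple eigenvalue zero. -/
theorem split_of_semi {V : Type} [AddCommGroup V] [Module Ω V] [FiniteDimensional Ω V]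
    (N : V →ₗ[Ω] V) (h : ∀ x, N (N x) = 0 → N x = 0) (x : V) : ∃ y z, N y = 0 ∧ x = y + N z := by
  have hdis : Disjoint (LinearMap.ker N) (LinearMap.range N) := by
    rw [Submodule.disjoint_def]
    rintro z hz ⟨w, rfl⟩
    exact h w hz
  have hsup : LinearMap.ker N ⊔ LinearMap.range N = ⊤ := by
    apply Submodule.eq_top_of_finrank_eq
    have h1 := Submodule.finrank_sup_add_finrank_inf_eq (LinearMap.ker N) (LinearMap.range N)
    rw [hdis.eq_bot, finrank_bot, add_zero] at h1
    have h2 := LinearMap.finrank_range_add_finrank_ker N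
    omega
  have hmem : x ∈ LinearMap.ker N ⊔ LinearMap.range N := by
    rw [hsup]
    trivial
  obtain ⟨y, hy, z, ⟨w, rfl⟩, rfl⟩ := Submodule.mem_sup.1 hmem
  exact ⟨y, w, hy, rfl⟩

theorem pow_zero_of_semi {V : Type} [AddCommGroup V] [Module Ω V]
    (N : V →ₗ[Ω] V) (h : ∀ x, N (N x) = 0 → N x = 0) (m : ℕ) (x : V) (hx : (N ^ m) x = 0) :
    N x = 0 := by
  induction m with
  | zero =>
    have h1 : x = 0 := by simpa using hx
    rw [h1, map_zero]
  | succ m ih =>
    rcases Nat.eq_zero_or_pos m with rfl | hm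
    · simpa using hx
    · apply ih
      obtain ⟨k, rfl⟩ : ∃ k, m = k + 1 := ⟨m - 1, by omega⟩
      have h1 : N (N ((N ^ k) x)) = 0 := by
        have h2 : (N ^ (k + 1 + 1)) x = N (N ((N ^ k) x)) := by
          rw [pow_succ', pow_succ']
          rfl
        rw [← h2, hx]
      have h3 : (N ^ (k + 1)) x = N ((N ^ k) x) := by
        rw [pow_succ']
        rfl
      rw [h3]
      exact h _ h1

variable [CharZero Ω] {q D : ℕ} {C : CycData Ω}

/-- the operator `Fr - q ^ j` -/
def opN (q : ℕ) (C : CycData Ω) (n : ℕ) (j : ℕ) : C.H n →ₗ[Ω] C.H n :=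
  C.Fr n - (q : Ω) ^ j • LinearMap.id

theorem opN_apply (n j : ℕ) (f : C.H n) : opN q C n j f = C.Fr n f - (q : Ω) ^ j • f := rfl

theorem opN_semi (hT : TateFacts q C) (j : ℕ) (f : C.H (2 * j))
    (h : opN q C _ j (opN q C _ j f) = 0) : opN q C _ j f = 0 := by
  rw [opN_apply, opN_apply, sub_eq_zero] at h
  rw [opN_apply, sub_eq_zero]
  exact hT.semi j f h

theorem Fr_cl (hC : IsCyc q D C) (j : ℕ) (x : C.CH j) :
    C.Fr _ (C.cl j x) = (q : Ω) ^ j • C.cl j x := by
  rw [← hC.frob_coh, ← hC.act_cl, hC.frob_chow]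
  have h1 : (((q : ℚ) ^ j) • x) = ((q ^ j : ℕ) : ℤ) • x := by
    rw [← Int.cast_smul_eq_zsmul ℚ]
    push_cast
    rfl
  rw [h1, map_zsmul, ← Int.cast_smul_eq_zsmul Ω]
  push_cast
  rfl

theorem pair_Fr (hC : IsCyc q D C) (hq : q ≠ 0) {i j : ℕ} (hij : i + j = D) (x : C.CH i)
    (f : C.H (2 * j)) : C.pair i j (C.cl i x) (C.Fr _ f) = (q : Ω) ^ j * C.pair i j (C.cl i x) f := by
  have h1 := hC.frob_pair i j hij (C.cl i x) f
  rw [Fr_cl hC, map_smul, LinearMap.smul_apply, smul_eq_mul, ← hij, pow_add, mul_assoc] at h1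
  exact mul_left_cancel₀ (pow_ne_zero _ (Nat.cast_ne_zero.2 hq)) h1

theorem pair_Fr' (hC : IsCyc q D C) (hq : q ≠ 0) {i j : ℕ} (hij : i + j = D) (f : C.H (2 * i))
    (x : C.CH j) : C.pair i j (C.Fr _ f) (C.cl j x) = (q : Ω) ^ i * C.pair i j f (C.cl j x) := by
  have h1 := hC.frob_pair i j hij f (C.cl j x)
  rw [Fr_cl hC, map_smul, smul_eq_mul, ← hij, pow_add, mul_comm ((q : Ω) ^ i), mul_assoc] at h1
  exact mul_left_cancel₀ (pow_ne_zero _ (Nat.cast_ne_zero.2 hq)) h1

/-- numerically trivial cycles are homologically trivial. -/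
theorem cl_zero_of_num (hC : IsCyc q D C) (hq : q ≠ 0) (hT : TateFacts q C) {i j : ℕ}
    (hij : i + j = D) (x : C.CH j) (hx : ∀ y : C.CH i, C.int i j y x = 0) : C.cl j x = 0 := by
  apply hC.right i j hij
  intro f
  have := hC.finite (2 * i)
  obtain ⟨y, z, hy, rfl⟩ := split_of_semi (opN q C _ i) (opN_semi hT i) f
  rw [map_add, LinearMap.add_apply]
  have h1 : C.pair i j (opN q C _ i z) (C.cl j x) = 0 := by
    rw [opN_apply, map_sub, LinearMap.sub_apply, pair_Fr' hC hq hij, map_smul,
      LinearMap.smul_apply, smul_eq_mul, sub_self]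
  have h2 : y ∈ Submodule.span Ω (Set.range (C.cl i)) := by
    apply hT.tate i y
    rw [opN_apply, sub_eq_zero] at hy
    exact hy
  have hker : ∀ w ∈ Submodule.span Ω (Set.range (C.cl i)), C.pair i j w (C.cl j x) = 0 := by
    intro w hw
    induction hw using Submodule.span_induction with
    | mem w hw =>
      obtain ⟨a, rfl⟩ := hw
      rw [← hC.int_cl i j hij, hx, Rat.cast_zero]
    | zero => rw [map_zero, LinearMap.zero_apply]
    | add u v _ _ hu hv => rw [map_add, LinearMap.add_apply, hu, hv, add_zero]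
    | smul c u _ hu => rw [map_smul, LinearMap.smul_apply, hu, smul_zero]
  rw [h1, add_zero, hker y h2]

/-- cycles with prescribed intersection numbers -/
theorem exists_int (i j : ℕ) {r : ℕ} (x : Fin r → C.CH j)
    (hx : ∀ c : Fin r → ℚ, (∀ y : C.CH i, C.int i j y (∑ k, c k • x k) = 0) → c = 0)
    (a : Fin r → ℚ) : ∃ y : C.CH i, ∀ k, C.int i j y (x k) = a k := by
  let θ : C.CH i →ₗ[ℚ] (Fin r → ℚ) := LinearMap.pi fun k => (C.int i j).flip (x k)
  have hθ : ∀ y k, θ y k = C.int i j y (x k) := fun y k => rfl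
  by_contra hcon
  have hlt : LinearMap.range θ < ⊤ := by
    rw [lt_top_iff_ne_top]
    intro h
    apply hcon
    have : a ∈ LinearMap.range θ := by rw [h]; trivial
    obtain ⟨y, hy⟩ := this
    exact ⟨y, fun k => by rw [← hθ, hy]⟩
  obtain ⟨φ, hφ, hle⟩ := Submodule.exists_le_ker_of_lt_top _ hlt
  apply hφ
  have hφ' : ∀ v, φ v = ∑ k, φ (Pi.single k 1) * v k := by
    intro v
    conv_lhs => rw [← Finset.univ_sum_single v]
    rw [map_sum]
    refine Finset.sum_congr rfl fun k _ => ?_
    have : (Pi.single k (v k) : Fin r → ℚ) = v k • Pi.single k (1 : ℚ) := by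
      ext l
      by_cases h : l = k
      · subst h; simp
      · simp [h]
    rw [this, map_smul, smul_eq_mul, mul_comm]
  have h0 : (fun k => φ (Pi.single k 1)) = 0 := by
    apply hx
    intro y
    have h1 : φ (θ y) = 0 := hle ⟨y, rfl⟩
    rw [hφ'] at h1
    rw [map_sum]
    simpa [hθ, mul_comm] using h1
  ext k
  have := congrFun h0 k
  simpa using this

/-- the polynomial -/
theorem exists_poly (hC : IsCyc q D C) (hT : TateFacts q C) (j : ℕ) :
    ∃ R : ℤ[X], R.eval ((q ^ j : ℕ) : ℤ) ≠ 0 ∧
      (∀ n, n ≠ 2 * j → aeval (C.Fr n) R = 0) ∧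
      ∀ f : C.H (2 * j), opN q C _ j (aeval (C.Fr (2 * j)) R f) = 0 := by
  have h1 : ∀ n, ∃ Q : ℤ[X], Q.eval ((q ^ j : ℕ) : ℤ) ≠ 0 ∧
      (n ≠ 2 * j → aeval (C.Fr n) Q = 0) ∧
      ∀ h : n = 2 * j, ∀ f : C.H n, opN q C _ j (aeval (C.Fr n) Q f) = 0 := by
    intro n
    obtain ⟨P, hP, hP0⟩ := hT.alg n
    obtain ⟨Q, hQ, hQ'⟩ := exists_eq_pow_rootMultiplicity_mul_and_not_dvd P hP ((q ^ j : ℕ) : ℤ)
    have hN : aeval (C.Fr n) (X - Polynomial.C ((q ^ j : ℕ) : ℤ)) = opN q C n j := by
      rw [map_sub, aeval_X, aeval_C]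
      unfold opN
      congr 1
      ext f
      simp only [Module.algebraMap_end_apply, LinearMap.smul_apply, LinearMap.id_apply]
      rw [← Int.cast_smul_eq_zsmul Ω]
      push_cast
      rfl
    have h2 : ∀ f, (opN q C n j ^ (rootMultiplicity ((q ^ j : ℕ) : ℤ) P))
        (aeval (C.Fr n) Q f) = 0 := by
      intro f
      have h3 : aeval (C.Fr n) P f = 0 := by rw [hP0]; rfl
      rw [hQ, map_mul, map_pow, hN] at h3
      exact h3
    refine ⟨Q, ?_, ?_, ?_⟩
    · intro h
      exact hQ' (dvd_iff_isRoot.2 h)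
    · intro hn
      ext f
      have h3 : ∀ (m : ℕ) (x : C.H n), (opN q C n j ^ m) x = 0 → x = 0 := by
        intro m
        induction m with
        | zero => intro x hx; simpa using hx
        | succ m ih =>
          intro x hx
          have h4 : (opN q C n j ^ m) (opN q C n j x) = 0 := by
            rw [pow_succ] at hx
            exact hx
          have h5 := ih _ h4
          rw [opN_apply, sub_eq_zero] at h5
          refine hT.pure n (j : ℤ) (by exact_mod_cast hn) x ?_
          rw [h5, zpow_natCast]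
      exact h3 _ _ (h2 f)
    · rintro rfl f
      exact pow_zero_of_semi (opN q C _ j) (opN_semi hT j) _ _ (h2 f)
  choose Q hQ using h1
  refine ⟨∏ n ∈ Finset.range (2 * D + 1) ∪ {2 * j}, Q n, ?_, ?_, ?_⟩
  · rw [eval_prod]
    exact Finset.prod_ne_zero_iff.2 fun n _ => (hQ n).1
  · intro n hn
    by_cases h : n ∈ Finset.range (2 * D + 1) ∪ {2 * j}
    · rw [← Finset.mul_prod_erase _ _ h, map_mul, (hQ n).2.1 hn, zero_mul]
    · ext f
      apply hC.top
      by_contra h'
      apply h
      simp only [Finset.mem_union, Finset.mem_range]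
      left
      omega
  · intro f
    have h : 2 * j ∈ Finset.range (2 * D + 1) ∪ {2 * j} := by simp
    rw [← Finset.mul_prod_erase _ _ h, map_mul]
    exact (hQ (2 * j)).2.2 rfl _

theorem aeval_eigen {V : Type} [AddCommGroup V] [Module Ω V] (φ : V →ₗ[Ω] V) (m : ℤ) (f : V)
    (hf : φ f = (m : Ω) • f) (R : ℤ[X]) : aeval φ R f = ((R.eval m : ℤ) : Ω) • f := by
  induction R using Polynomial.induction_on' with
  | add P Q hP hQ => rw [map_add, LinearMap.add_apply, hP, hQ, eval_add, Int.cast_add, add_smul]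
  | monomial k a =>
    have h1 : ∀ k : ℕ, (φ ^ k) f = (m : Ω) ^ k • f := by
      intro k
      induction k with
      | zero => rw [pow_zero, pow_zero, one_smul]; rfl
      | succ k ih =>
        rw [pow_succ, Module.End.mul_apply, hf, map_smul, ih, smul_smul, ← pow_succ']
    rw [aeval_monomial]
    change (((a : ℤ) : Module.End Ω V) * φ ^ k) f = _
    rw [Module.End.mul_apply, Module.End.intCast_apply, ← Int.cast_smul_eq_zsmul Ω, h1, smul_smul,
      eval_monomial]
    push_cast
    rfl

theorem act_aeval {A T : Type} [Ring A] [AddCommGroup T] [Module ℚ T] (φ : A →+* Module.End ℚ T)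
    (c : A) (N : ℤ) (hc : ∀ x, φ c x = (N : ℚ) • x) (R : ℤ[X]) (x : T) :
    φ (aeval c R) x = ((R.eval N : ℤ) : ℚ) • x := by
  have h1 : φ c = algebraMap ℤ (Module.End ℚ T) N := by
    ext x
    rw [hc]
    change _ = ((N : ℤ) : Module.End ℚ T) x
    rw [Module.End.intCast_apply, ← Int.cast_smul_eq_zsmul ℚ]
  have h2 : φ (aeval c R) = algebraMap ℤ (Module.End ℚ T) (R.eval N) := by
    have h3 := Polynomial.aeval_algHom_apply (RingHom.toIntAlgHom φ) c R
    have h4 : (RingHom.toIntAlgHom φ) c = φ c := rfl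
    have h5 : (RingHom.toIntAlgHom φ) (aeval c R) = φ (aeval c R) := rfl
    rw [h4, h5, h1, aeval_algebraMap_apply_eq_algebraMap_eval] at h3
    exact h3.symm
  rw [h2]
  change (((R.eval N : ℤ)) : Module.End ℚ T) x = _
  rw [Module.End.intCast_apply, ← Int.cast_smul_eq_zsmul ℚ]

theorem actH_aeval (hC : IsCyc q D C) (n : ℕ) (R : ℤ[X]) :
    C.actH n (aeval C.frob R) = aeval (C.Fr n) R := by
  have h3 := Polynomial.aeval_algHom_apply (RingHom.toIntAlgHom (C.actH n)) C.frob R
  have h4 : (RingHom.toIntAlgHom (C.actH n)) C.frob = C.actH n C.frob := rfl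
  have h5 : (RingHom.toIntAlgHom (C.actH n)) (aeval C.frob R) = C.actH n (aeval C.frob R) := rfl
  rw [h4, h5, hC.frob_coh] at h3
  exact h3.symm

/-- The correspondence that is the projector to the algebraic classes, up to nilpotent
correspondences. -/
theorem key (hC : IsCyc q D C) (hq : q ≠ 0) (hT : TateFacts q C) (j : ℕ) :
    ∃ (c : C.Corr) (R : ℤ[X]), R.eval ((q ^ j : ℕ) : ℤ) ≠ 0 ∧
      IsNilpotent (aeval C.frob R - (R.eval ((q ^ j : ℕ) : ℤ)) • c) ∧
      (∀ a b, a ≠ 2 * b → ∀ x, C.actM a b c x = 0) ∧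
      ∀ x : C.CH j, C.cl j x = 0 → C.actC j c x = 0 := by
  obtain ⟨R, hR, hR1, hR2⟩ := exists_poly hC hT j
  rcases Nat.lt_or_ge D j with hj | hj
  · refine ⟨0, R, hR, ?_, fun a b _ x => by rw [map_zero]; rfl, fun x _ => by rw [map_zero]; rfl⟩
    rw [smul_zero, sub_zero]
    apply hC.nilpotent
    intro n f
    rw [actH_aeval hC]
    by_cases hn : n = 2 * j
    · exact hC.top n (by omega) _
    · rw [hR1 n hn]; rfl
  · obtain ⟨i, hij⟩ : ∃ i, i + j = D := ⟨D - j, by omega⟩
    -- a basis of the space of Tate classes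
    have hfin := hC.finite (2 * j)
    obtain ⟨s, hs1, hs2, hs3⟩ := exists_linearIndependent Ω (Set.range (C.cl j))
    have hsf : s.Finite := hs3.setFinite
    obtain ⟨r, ⟨e⟩⟩ : ∃ r, Nonempty (Fin r ≃ s) := by
      have := hsf.fintype
      exact ⟨Fintype.card s, ⟨(Fintype.equivFin s).symm⟩⟩
    have hz : ∀ a : Fin r, ∃ z : C.CH j, C.cl j z = (e a : C.H (2 * j)) := fun a => hs1 (e a).2
    choose z hz using hz
    have hli : LinearIndependent Ω fun a => C.cl j (z a) := by
      have h1 : (fun a => C.cl j (z a)) = (fun x : s => (x : C.H (2 * j))) ∘ e := by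
        ext a; exact hz a
      rw [h1]
      exact hs3.comp _ e.injective
    have hspan : Submodule.span Ω (Set.range fun a => C.cl j (z a)) =
        Submodule.span Ω (Set.range (C.cl j)) := by
      rw [← hs2]
      congr 1
      ext x
      constructor
      · rintro ⟨a, rfl⟩
        change C.cl j (z a) ∈ s
        rw [hz a]
        exact (e a).2
      · intro hx
        exact ⟨e.symm ⟨x, hx⟩, by
          change C.cl j (z _) = x
          rw [hz, Equiv.apply_symm_apply]⟩
    have hdual : ∀ a : Fin r, ∃ y : C.CH i, ∀ b, C.int i j y (z b) = if a = b then 1 else 0 := by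
      intro a
      refine exists_int i j z ?_ (fun b => if a = b then 1 else 0)
      intro c hc
      have h1 := cl_zero_of_num hC hq hT hij _ hc
      rw [map_sum] at h1
      have h2 : ∑ k, (c k : Ω) • C.cl j (z k) = 0 := by
        rw [← h1]
        refine Finset.sum_congr rfl fun k _ => ?_
        have h3 := map_ratCast_smul (C.cl j) ℚ Ω (c k) (z k)
        rw [Rat.cast_id] at h3
        exact h3.symm
      ext k
      have h3 := (Fintype.linearIndependent_iff.1 hli) (fun k => (c k : Ω)) h2 k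
      simpa using h3
    choose y hy using hdual
    refine ⟨∑ a, C.prod i j (y a) (z a), R, hR, ?_, ?_, ?_⟩
    · apply hC.nilpotent
      intro n f
      rw [map_sub, LinearMap.sub_apply, actH_aeval hC, map_zsmul, map_sum]
      by_cases hn : n = 2 * j
      · subst hn
        have hsum : ∀ g : C.H (2 * j), (∑ a, C.actH (2 * j) (C.prod i j (y a) (z a))) g =
            ∑ a, C.pair i j (C.cl i (y a)) g • C.cl j (z a) := by
          intro g
          rw [LinearMap.sum_apply]
          exact Finset.sum_congr rfl fun a _ => hC.prod_coh i j hij _ _ _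
        obtain ⟨u, v, hu, rfl⟩ := split_of_semi (opN q C _ j) (opN_semi hT j) f
        have h1 : aeval (C.Fr (2 * j)) R (opN q C _ j v) = 0 := by
          have h2 : aeval (C.Fr (2 * j)) R (opN q C _ j v) =
              opN q C _ j (aeval (C.Fr (2 * j)) R v) := by
            have h3 : Commute (C.Fr (2 * j)) (aeval (C.Fr (2 * j)) R) := by
              have := (Polynomial.commute_X R).map (aeval (C.Fr (2 * j)) : ℤ[X] →ₐ[ℤ] _)
              rwa [aeval_X] at this
            rw [opN_apply, opN_apply, map_sub, map_smul]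
            congr 1
            exact (LinearMap.congr_fun h3.eq v).symm
          rw [h2, hR2]
        have h2 : aeval (C.Fr (2 * j)) R u = ((R.eval ((q ^ j : ℕ) : ℤ) : ℤ) : Ω) • u := by
          apply aeval_eigen
          rw [opN_apply, sub_eq_zero] at hu
          rw [hu]
          push_cast
          rfl
        have h3 : (∑ a, C.actH (2 * j) (C.prod i j (y a) (z a))) (opN q C _ j v) = 0 := by
          rw [hsum]
          refine Finset.sum_eq_zero fun a _ => ?_
          rw [opN_apply, map_sub, pair_Fr hC hq hij, map_smul, smul_eq_mul, sub_self, zero_smul]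
        have h4 : (∑ a, C.actH (2 * j) (C.prod i j (y a) (z a))) u = u := by
          have h5 : u ∈ Submodule.span Ω (Set.range fun a => C.cl j (z a)) := by
            rw [hspan]
            apply hT.tate
            rw [opN_apply, sub_eq_zero] at hu
            exact hu
          have h6 : ∀ w ∈ Submodule.span Ω (Set.range fun a => C.cl j (z a)),
              (∑ a, C.actH (2 * j) (C.prod i j (y a) (z a))) w = w := by
            intro w hw
            induction hw using Submodule.span_induction with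
            | mem w hw =>
              obtain ⟨b, rfl⟩ := hw
              rw [hsum, Finset.sum_eq_single b]
              · rw [← hC.int_cl i j hij, hy, if_pos rfl, Rat.cast_one, one_smul]
              · intro a _ hab
                rw [← hC.int_cl i j hij, hy, if_neg hab, Rat.cast_zero, zero_smul]
              · intro h; exact absurd (Finset.mem_univ b) h
            | zero => rw [map_zero]
            | add u v _ _ hu hv => rw [map_add, hu, hv]
            | smul c u _ hu => rw [map_smul, hu]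
          exact h6 u h5
        rw [map_add, h1, h2, LinearMap.smul_apply, map_add, h3, h4, add_zero, add_zero,
          ← Int.cast_smul_eq_zsmul Ω, sub_self]
      · rw [hR1 n hn, LinearMap.smul_apply, LinearMap.sum_apply, Finset.sum_eq_zero, smul_zero]
        · simp
        · intro a _
          exact hC.prod_coh_ne i j n hij hn _ _ _
    · intro a b hab x
      rw [map_sum, LinearMap.sum_apply]
      exact Finset.sum_eq_zero fun k _ => hC.prod_mot i j hij a b hab _ _ _
    · intro x hx
      rw [map_sum, LinearMap.sum_apply]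
      refine Finset.sum_eq_zero fun k _ => ?_
      rw [hC.prod_chow i j hij]
      have h1 : ((C.int i j (y k) x : ℚ) : Ω) = 0 := by
        rw [hC.int_cl i j hij, hx, map_zero]
      rw [Rat.cast_eq_zero.1 h1, zero_smul]

/-- a correspondence which acts as a nonzero scalar is not nilpotent -/
theorem zero_of_nil {A T : Type} [Ring A] [AddCommGroup T] [Module ℚ T]
    (φ : A →+* Module.End ℚ T) {e : A} (he : IsNilpotent e) {c : ℚ} (hc : c ≠ 0) {x : T}
    (h : φ e x = c • x) : x = 0 := by
  obtain ⟨k, hk⟩ := he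
  have h1 : ∀ k : ℕ, φ (e ^ k) x = c ^ k • x := by
    intro k
    induction k with
    | zero => rw [pow_zero, pow_zero, map_one, one_smul]; rfl
    | succ k ih =>
      rw [pow_succ, map_mul, Module.End.mul_apply, h, map_smul, ih, smul_smul, ← pow_succ']
  have h2 := h1 k
  rw [hk, map_zero, LinearMap.zero_apply] at h2
  exact (smul_eq_zero.1 h2.symm).resolve_left (pow_ne_zero _ hc)

/-- Homologically trivial cycles are trivial. -/
theorem cl_injective (hC : IsCyc q D C) (hq : q ≠ 0) (hT : TateFacts q C) (j : ℕ) (x : C.CH j)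
    (hx : C.cl j x = 0) : x = 0 := by
  obtain ⟨c, R, hR, hnil, -, hc⟩ := key hC hq hT j
  refine zero_of_nil (C.actC j) hnil (c := ((R.eval ((q ^ j : ℕ) : ℤ) : ℤ) : ℚ))
    (by exact_mod_cast hR) ?_
  rw [map_sub, LinearMap.sub_apply, map_zsmul, LinearMap.smul_apply, hc x hx, smul_zero, sub_zero]
  apply act_aeval
  intro x
  rw [hC.frob_chow]
  push_cast
  rfl

/-- Parshin's conjecture. -/
theorem mot_zero (hC : IsCyc q D C) (hq : q ≠ 0) (hT : TateFacts q C) {a b : ℤ} (hab : a ≠ 2 * b)
    (x : C.Mot a b) : x = 0 := by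
  rcases lt_or_ge b 0 with hb | hb
  · exact hC.mot_neg a b hb x
  · obtain ⟨j, rfl⟩ := Int.eq_ofNat_of_zero_le hb
    obtain ⟨c, R, hR, hnil, hc, -⟩ := key hC hq hT j
    refine zero_of_nil (C.actM a j) hnil (c := ((R.eval ((q ^ j : ℕ) : ℤ) : ℤ) : ℚ))
      (by exact_mod_cast hR) ?_
    rw [map_sub, LinearMap.sub_apply, map_zsmul, LinearMap.smul_apply, hc _ _ hab x, smul_zero,
      sub_zero]
    apply act_aeval
    intro x
    rw [hC.frob_mot]
    push_cast
    rfl

/-- The classes of linearly independent cycles are linearly independent. -/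
theorem cl_indep (hC : IsCyc q D C) (hq : q ≠ 0) (hT : TateFacts q C) (j : ℕ) {r : ℕ}
    (x : Fin r → C.CH j) (hx : LinearIndependent ℚ x) :
    LinearIndependent Ω fun k => C.cl j (x k) := by
  rcases Nat.lt_or_ge D j with hj | hj
  · rcases Nat.eq_zero_or_pos r with rfl | hr
    · exact linearIndependent_empty_type
    · exact absurd (cl_injective hC hq hT j (x ⟨0, hr⟩) (hC.top _ (by omega) _)) (hx.ne_zero _)
  · obtain ⟨i, hij⟩ : ∃ i, i + j = D := ⟨D - j, by omega⟩
    rw [Fintype.linearIndependent_iff]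
    intro ω hω a
    obtain ⟨y, hy⟩ := exists_int i j x (fun c hc => by
      have h1 := cl_injective hC hq hT j _ (cl_zero_of_num hC hq hT hij _ hc)
      ext k
      exact (Fintype.linearIndependent_iff.1 hx) c h1 k) (fun b => if a = b then 1 else 0)
    have h1 : C.pair i j (C.cl i y) (∑ k, ω k • C.cl j (x k)) = ω a := by
      rw [map_sum, Finset.sum_eq_single a]
      · rw [map_smul, ← hC.int_cl i j hij, hy, if_pos rfl, Rat.cast_one, smul_eq_mul, mul_one]
      · intro b _ hab
        rw [map_smul, ← hC.int_cl i j hij, hy, if_neg (Ne.symm hab), Rat.cast_zero, smul_zero]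
      · intro h; exact absurd (Finset.mem_univ a) h
    rw [← h1, hω, map_zero]

end

end Pool.Agent.KS6_19.GF.Bun
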