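import Pool.Agent.KS6_19.GF.SplitSlopes
import Pool.Agent.KS6_19.GF.CycTB
import Pool.Agent.KS6_5.KL.Main

/-!
# The conjecture of Tate for products of abelian varieties and a curve
-/

set_option autoImplicit false
set_option linter.unusedSectionVars false

namespace Pool.Agent.KS6_19.GF.Bun

open Polynomial Module Pool.Agent.KS6_5 Pool.Agent.KS6_5.OC

noncomputable section

/-- a multilinear map which vanishes on generators is zero. -/
theorem multilinear_zero {ι Ω M : Type} [Fintype ι] [DecidableEq ι] {V : ι → Type} [Field Ω]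
    [∀ k, AddCommGroup (V k)] [∀ k, Module Ω (V k)] [AddCommGroup M] [Module Ω M]
    (s : ∀ k, Set (V k)) (hs : ∀ k, Submodule.span Ω (s k) = ⊤) (f : MultilinearMap Ω V M)
    (hf : ∀ v, (∀ k, v k ∈ s k) → f v = 0) : f = 0 := by
  have h1 : ∀ (A : Finset ι) (v : ∀ k, V k), (∀ k, k ∉ A → v k ∈ s k) → f v = 0 := by
    intro A
    induction A using Finset.induction_on with
    | empty => exact fun v hv => hf v fun k => hv k (Finset.notMem_empty k)
    | insert a A _ ih =>
      intro v hv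
      have h2 : ∀ x ∈ s a, f (Function.update v a x) = 0 := by
        intro x hx
        apply ih
        intro k hk
        by_cases hka : k = a
        · subst hka
          rw [Function.update_self]
          exact hx
        · rw [Function.update_of_ne hka]
          exact hv k (by simp [hka, hk])
      have h3 : Submodule.span Ω (s a) ≤ LinearMap.ker (f.toLinearMap v a) :=
        Submodule.span_le.2 fun x hx => by
          rw [SetLike.mem_coe, LinearMap.mem_ker]
          exact h2 x hx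
      have h4 : v a ∈ LinearMap.ker (f.toLinearMap v a) := h3 (by rw [hs a]; trivial)
      rw [LinearMap.mem_ker] at h4
      have h5 : f (Function.update v a (v a)) = 0 := h4
      rwa [Function.update_eq_self] at h5
  ext v
  exact h1 Finset.univ v fun k hk => absurd (Finset.mem_univ k) hk

/-- diagonalizable operators have semisimple eigenvalues. -/
theorem diag_semi {Ω M : Type} [Field Ω] [AddCommGroup M] [Module Ω M] (G : M →ₗ[Ω] M)
    (hG : Submodule.span Ω {x : M | ∃ μ : Ω, G x = μ • x} = ⊤) (a b : Ω) (x : M)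
    (h : a • G (a • G x - b • x) - b • (a • G x - b • x) = 0) : a • G x - b • x = 0 := by
  let B := Basis.ofSpan (K := Ω) (s := {x : M | ∃ μ : Ω, G x = μ • x}) hG.ge
  have hB : ∀ i, ∃ μ : Ω, G (B i) = μ • B i := fun i =>
    Basis.ofSpan_subset hG.ge (Set.mem_range_self i)
  choose μ hμ using hB
  have h1 : ∀ y : M, ∀ i, B.repr (a • G y - b • y) i = (a * μ i - b) * B.repr y i := by
    intro y i
    have h2 : (B.coord i) ∘ₗ (a • G - b • LinearMap.id) = (a * μ i - b) • B.coord i := by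
      apply B.ext
      intro j
      simp only [LinearMap.comp_apply, LinearMap.sub_apply, LinearMap.smul_apply,
        LinearMap.id_apply, hμ, map_sub, map_smul, Basis.coord_apply, Basis.repr_self, smul_eq_mul]
      by_cases hij : j = i
      · subst hij
        simp
      · simp [hij]
    have h3 := LinearMap.congr_fun h2 y
    simpa using h3
  apply B.repr.injective
  ext i
  have h4 : B.repr (a • G (a • G x - b • x) - b • (a • G x - b • x)) i = 0 := by
    rw [h, map_zero, Finsupp.zero_apply]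
  rw [h1, h1] at h4
  rw [h1, map_zero, Finsupp.zero_apply]
  rcases mul_eq_zero.1 h4 with h5 | h5
  · rw [h5, zero_mul]
  · exact h5

variable {p : ℕ} [Fact p.Prime] {Ω κ : Type} [Field Ω] [CharZero Ω] [IsAlgClosed Ω]

/-- eigenvalues of operators which are annihilated by polynomials. -/
theorem eigen_root {M : Type} [AddCommGroup M] [Module Ω M] {G : M →ₗ[Ω] M} {R : ℤ[X]}
    (hR : aeval G R = 0) {μ : Ω} {x : M} (hx : G x = μ • x) (hx0 : x ≠ 0) : aeval μ R = 0 := by
  have h2 : Module.End.HasEigenvector G μ x := ⟨Module.End.mem_eigenspace_iff.2 hx, hx0⟩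
  have h3 : aeval G (R.map (algebraMap ℤ Ω)) = 0 := by
    rw [← hR]
    exact Polynomial.aeval_map_algebraMap Ω G R
  have h4 := Module.End.aeval_apply_of_hasEigenvector (p := R.map (algebraMap ℤ Ω)) h2
  rw [h3, LinearMap.zero_apply] at h4
  have h5 := (smul_eq_zero.1 h4.symm).resolve_right hx0
  rwa [eval_map_algebraMap] at h5

/-- the operators on the cohomology of the curve. -/
theorem curve_facts {a : ℕ} {F : FactorData Ω κ} (hF : IsFactorData p (p ^ a) F) (j : ℕ) :
    Submodule.span Ω {x : F.M j | ∃ μ : Ω, F.G j x = μ • x} = ⊤ ∧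
    (∀ (μ : Ω) (x : F.M j), F.G j x = μ • x → x ≠ 0 → μ ≠ 0 ∧ ∀ c : ℕ,
      SlopesWithin p (p ^ a) (if j = 1 then 1 else 0) (((p ^ a : ℕ) : Ω) ^ c * μ⁻¹)) := by
  have hq0 : ((p ^ a : ℕ) : Ω) ≠ 0 :=
    Nat.cast_ne_zero.2 (pow_ne_zero _ (Fact.out : p.Prime).ne_zero)
  rcases lt_trichotomy j 1 with h | rfl | h
  · obtain rfl : j = 0 := by omega
    refine ⟨?_, fun μ x hx hx0 => ?_⟩
    · rw [eq_top_iff]
      exact fun x _ => Submodule.subset_span ⟨1, by rw [hF.curve_zero, one_smul]⟩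
    · have h1 : μ = 1 := by
        rw [hF.curve_zero] at hx
        have h2 : (μ - 1) • x = 0 := by rw [sub_smul, one_smul, ← hx, sub_self]
        exact sub_eq_zero.1 ((smul_eq_zero.1 h2).resolve_right hx0)
      subst h1
      refine ⟨one_ne_zero, fun c => ?_⟩
      rw [if_neg (by norm_num), inv_one, mul_one]
      have h2 := slopesWithin_power (p := p) (a := a) (Ω := Ω) (c : ℤ)
      rwa [zpow_natCast] at h2
  · refine ⟨hF.curve_semisimple, fun μ x hx hx0 => ?_⟩
    have h1 : aeval μ F.R = 0 := eigen_root hF.curve_char hx hx0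
    refine ⟨?_, fun c => ?_⟩
    · rintro rfl
      have h2 : aeval (0 : AlgebraicClosure ℚ) F.R = 0 := by
        rw [aeval_def, eval₂_at_zero] at h1 ⊢
        rw [eq_intCast, Int.cast_eq_zero] at h1
        rw [h1, map_zero]
      obtain ⟨φ⟩ : Nonempty (AlgebraicClosure ℚ →ₐ[ℚ] ℂ) := ⟨IsAlgClosed.lift⟩
      have h3 := hF.curve_weil 0 h2 φ.toRingHom
      rw [map_zero, norm_zero, zero_pow two_ne_zero] at h3
      have h4 : ((p ^ a : ℕ) : ℝ) ≠ 0 :=
        Nat.cast_ne_zero.2 (pow_ne_zero _ (Fact.out : p.Prime).ne_zero)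
      exact h4 h3.symm
    · rw [if_pos rfl]
      exact slopesWithin_curve hF.curve_monic hF.curve_weil c μ h1
  · by_cases h2 : j = 2
    · subst h2
      refine ⟨?_, fun μ x hx hx0 => ?_⟩
      · rw [eq_top_iff]
        exact fun x _ => Submodule.subset_span ⟨((p ^ a : ℕ) : Ω), by rw [hF.curve_two]⟩
      · have h1 : μ = ((p ^ a : ℕ) : Ω) := by
          rw [hF.curve_two] at hx
          have h2 : (μ - ((p ^ a : ℕ) : Ω)) • x = 0 := by rw [sub_smul, ← hx, sub_self]
          exact sub_eq_zero.1 ((smul_eq_zero.1 h2).resolve_right hx0)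
        subst h1
        refine ⟨hq0, fun c => ?_⟩
        rw [if_neg (by norm_num)]
        have h2 := slopesWithin_power (p := p) (a := a) (Ω := Ω) ((c : ℤ) - 1)
        rwa [zpow_sub₀ hq0, zpow_natCast, zpow_one, div_eq_mul_inv] at h2
    · have h3 := hF.curve_top j (by omega)
      refine ⟨?_, fun μ x hx hx0 => absurd (h3 x) hx0⟩
      rw [eq_top_iff]
      intro x _
      rw [h3 x]
      exact Submodule.zero_mem _

/-- the number of variables in the set `S`. -/
theorem card_small {i j c : ℕ} (hij : i + j = 2 * c) (S : Finset (Fin i))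
    (δ : Fin i → ℝ) (hδ : ∀ k, δ k = 0 ∨ 1 / 2 < (2 * δ k) ^ 2)
    (hS : ∑ k ∈ S, (2 * δ k) ^ 2 ≤ (if j = 1 then (1 : ℝ) else 0) ^ 2)
    (hS0 : ∀ a ∈ S, ∀ b ∈ S, δ a = 0 → δ b = 0 → a = b)
    (P : Finpartition (Finset.univ \ S)) (hP : ∀ B ∈ P.parts, B.card = 2) : S.card ≤ 1 := by
  have hpar : i = S.card + 2 * P.parts.card := by
    have h1 := P.sum_card_parts
    rw [Finset.sum_congr rfl hP, Finset.sum_const, smul_eq_mul, Finset.card_sdiff_of_subset
      (Finset.subset_univ S), Finset.card_univ, Fintype.card_fin] at h1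
    have h2 := Finset.card_le_univ S
    rw [Fintype.card_fin] at h2
    omega
  have hz : (S.filter fun k => δ k = 0).card ≤ 1 := by
    rw [Finset.card_le_one]
    intro a ha b hb
    rw [Finset.mem_filter] at ha hb
    exact hS0 a ha.1 b hb.1 ha.2 hb.2
  have hsplit : (S.filter fun k => δ k = 0).card + (S.filter fun k => ¬ δ k = 0).card = S.card :=
    Finset.card_filter_add_card_filter_not _
  have hsum : ∑ k ∈ S.filter (fun k => ¬ δ k = 0), (2 * δ k) ^ 2 ≤
      (if j = 1 then (1 : ℝ) else 0) ^ 2 :=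
    le_trans (Finset.sum_le_sum_of_subset_of_nonneg (Finset.filter_subset _ _)
      fun _ _ _ => sq_nonneg _) hS
  have hlow : ((S.filter fun k => ¬ δ k = 0).card : ℝ) * (1 / 2) ≤
      ∑ k ∈ S.filter (fun k => ¬ δ k = 0), (2 * δ k) ^ 2 := by
    rw [← nsmul_eq_mul]
    apply Finset.card_nsmul_le_sum
    intro k hk
    rw [Finset.mem_filter] at hk
    exact ((hδ k).resolve_left hk.2).le
  have hlow' : 2 ≤ (S.filter fun k => ¬ δ k = 0).card →
      1 < ∑ k ∈ S.filter (fun k => ¬ δ k = 0), (2 * δ k) ^ 2 := by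
    intro h2
    obtain ⟨T, hT, hTc⟩ := Finset.exists_subset_card_eq h2
    obtain ⟨x, y, hxy, rfl⟩ := Finset.card_eq_two.1 hTc
    have hx := Finset.mem_filter.1 (hT (Finset.mem_insert_self x _))
    have hy := Finset.mem_filter.1 (hT (Finset.mem_insert_of_mem (Finset.mem_singleton_self y)))
    have h3 : ∑ k ∈ ({x, y} : Finset (Fin i)), (2 * δ k) ^ 2 ≤
        ∑ k ∈ S.filter (fun k => ¬ δ k = 0), (2 * δ k) ^ 2 :=
      Finset.sum_le_sum_of_subset_of_nonneg hT fun _ _ _ => sq_nonneg _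
    rw [Finset.sum_pair hxy] at h3
    have h4 := (hδ x).resolve_left hx.2
    have h5 := (hδ y).resolve_left hy.2
    linarith
  by_cases hj1 : j = 1
  · rw [if_pos hj1, one_pow] at hsum
    have h3 : (S.filter fun k => ¬ δ k = 0).card ≤ 1 := by
      by_contra hcon
      have := hlow' (by omega)
      linarith
    omega
  · rw [if_neg hj1, zero_pow two_ne_zero] at hsum
    have h3 : (S.filter fun k => ¬ δ k = 0).card = 0 := by
      by_contra hcon
      have h4 : (1 : ℝ) ≤ (S.filter fun k => ¬ δ k = 0).card := by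
        exact_mod_cast Nat.one_le_iff_ne_zero.2 hcon
      linarith
    omega

/-- **The conjecture of Tate**: the components of Tate classes are linear combinations of products of
divisor classes. -/
theorem pair_products {a : ℕ} (ha : 0 < a) {F : FactorData Ω κ} (hF : IsFactorData p (p ^ a) F)
    {i j c : ℕ} (hij : i + j = 2 * c) (τ : Fin i → κ)
    (f : MultilinearMap Ω (fun b => F.V (τ b)) (F.M j))
    (hf : ∀ v, F.G j (f fun b => F.Φ (τ b) (v b)) = ((p ^ a : ℕ) : Ω) ^ c • f v) :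
    f ∈ Submodule.span Ω {ψ | IsPairProduct (p ^ a) c (fun b => F.Φ (τ b)) (F.G j) ψ} := by
  classical
  have hq0 : ((p ^ a : ℕ) : Ω) ≠ 0 :=
    Nat.cast_ne_zero.2 (pow_ne_zero _ (Fact.out : p.Prime).ne_zero)
  rcases Nat.lt_or_ge 2 j with hj | hj
  · have h1 : f = 0 := by
      ext v
      exact hF.curve_top j hj _
    rw [h1]
    exact Submodule.zero_mem _
  obtain ⟨hdiag, hslope⟩ := curve_facts hF j
  have hfin := hF.curve_finite j
  have hfinV : ∀ b, FiniteDimensional Ω (F.V (τ b)) := fun b => hF.finite (τ b)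
  have hinj : Function.Injective (F.G j) := by
    rw [← LinearMap.ker_eq_bot, LinearMap.ker_eq_bot']
    intro x hx
    by_contra hx0
    exact (hslope 0 x (by rw [hx, zero_smul]) hx0).1 rfl
  let e : F.M j ≃ₗ[Ω] F.M j := LinearEquiv.ofInjectiveEndo (F.G j) hinj
  have he : ∀ x, e x = F.G j x := fun x => rfl
  let G' : F.M j →ₗ[Ω] F.M j := (((p ^ a : ℕ) : Ω) ^ c) • (e.symm : F.M j →ₗ[Ω] F.M j)
  have hG' : ∀ x, G' x = ((p ^ a : ℕ) : Ω) ^ c • e.symm x := fun x => rfl
  have hGG' : ∀ x, F.G j (G' x) = ((p ^ a : ℕ) : Ω) ^ c • x := by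
    intro x
    rw [hG', map_smul, ← he, e.apply_symm_apply]
  have hG'G : ∀ x, G' (F.G j x) = ((p ^ a : ℕ) : Ω) ^ c • x := by
    intro x
    rw [hG', ← he, e.symm_apply_apply]
  have hpow : ∀ (s : ℕ) (x : F.M j), (F.G j ^ s) ((G' ^ s) x) = (((p ^ a : ℕ) : Ω) ^ c) ^ s • x := by
    intro s
    induction s with
    | zero => intro x; simp
    | succ s ih =>
      intro x
      rw [pow_succ, pow_succ']
      change (F.G j ^ s) (F.G j (G' ((G' ^ s) x))) = _
      rw [hGG', map_smul, ih, smul_smul, pow_succ']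
  have hslopes : ∀ β : Ω, Module.End.HasEigenvalue G' β →
      SlopesWithin p (p ^ a) (if j = 1 then 1 else 0) β := by
    intro β hβ
    obtain ⟨x, hx⟩ := hβ.exists_hasEigenvector
    have hx1 : G' x = β • x := Module.End.mem_eigenspace_iff.1 hx.1
    have hx0 : x ≠ 0 := hx.2
    have hβ0 : β ≠ 0 := by
      rintro rfl
      have h1 := hGG' x
      rw [hx1, zero_smul, map_zero] at h1
      exact hx0 ((smul_eq_zero.1 h1.symm).resolve_left (pow_ne_zero _ hq0))
    have h2 : F.G j x = (((p ^ a : ℕ) : Ω) ^ c * β⁻¹) • x := by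
      have h1 := hGG' x
      rw [hx1, map_smul] at h1
      rw [mul_comm, mul_smul, ← h1, smul_smul, inv_mul_cancel₀ hβ0, one_smul]
    have h3 := (hslope _ x h2 hx0).2 c
    have h4 : ((p ^ a : ℕ) : Ω) ^ c * (((p ^ a : ℕ) : Ω) ^ c * β⁻¹)⁻¹ = β := by
      rw [mul_inv, inv_inv, ← mul_assoc, mul_inv_cancel₀ (pow_ne_zero _ hq0), one_mul]
    rwa [h4] at h3
  have hT : ∀ v, f (fun k => (F.Φ (τ k) ^ 1) (v k)) = (G' ^ 1) (f v) := by
    intro v
    simp only [pow_one]
    apply hinj
    rw [hf, hGG']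
  rcases hF.kind with ⟨P, δ, hk, hkl⟩ | ⟨hp2, K, _, e', A, B, C, hK, hk⟩
  · have hmain := tate_onePlace (p := p) ha (fun b => P (τ b)) (fun b => δ (τ b))
      (fun b => (hk _).2.1) (fun b => (hk _).2.2.1) (fun b => (hk _).2.2.2.2)
      (fun b b' => hkl _ _) (fun b => F.Φ (τ b)) (fun b => hF.semisimple _)
      (fun b => (hk _).1) G' (if j = 1 then 1 else 0) hslopes f ⟨1, one_pos, hT⟩
    refine Submodule.span_mono ?_ hmain
    rintro ψ ⟨S, hS, hS0, P', g, h, h1, ⟨s, hs, h2⟩, h3⟩
    refine ⟨S, card_small hij S _ (fun k => (hk _).2.2.2.1) hS hS0 P' fun B hB => (h1 B hB).1,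
      P', g, h, h1, ⟨s, hs, fun v => ?_⟩, h3⟩
    rw [← map_smul, ← h2 v, hpow]
  · have hmain := KL.tate_kloosterman (p := p) hp2 ha (fun b => e' (τ b)) (fun _ => 1)
      (fun b => (hk _).1) (fun _ => one_pos) (fun _ => K) (fun _ => by rw [hK, pow_one])
      (fun b => A (τ b)) (fun b => B (τ b)) (fun b => C (τ b)) (fun b => (hk _).2.1)
      (fun b => (hk _).2.2.1) (fun b => F.Φ (τ b)) (fun b => (hk _).2.2.2) G'
      (if j = 1 then 1 else 0) hslopes f ⟨1, one_pos, hT⟩
    refine Submodule.span_mono ?_ hmain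
    rintro ψ ⟨S, hS, P', g, h, h1, ⟨s, hs, h2⟩, h3⟩
    refine ⟨S, ?_, P', g, h, h1, ⟨s, hs, fun v => ?_⟩, h3⟩
    · have h4 : (S.card : ℝ) ≤ 1 := hS.trans (by split_ifs <;> norm_num)
      exact_mod_cast h4
    · rw [← map_smul, ← h2 v, hpow]

/-- semisimplicity of the Frobenius on the components. -/
theorem comp_semi {a : ℕ} {F : FactorData Ω κ} (hF : IsFactorData p (p ^ a) F) {i j : ℕ}
    (τ : Fin i → κ) (b : Ω) (f f' : MultilinearMap Ω (fun b => F.V (τ b)) (F.M j))
    (h : ∀ v, f' v = F.G j (f fun k => F.Φ (τ k) (v k)) - b • f v)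
    (h' : ∀ v, F.G j (f' fun k => F.Φ (τ k) (v k)) - b • f' v = 0) : f' = 0 := by
  classical
  obtain ⟨hdiag, -⟩ := curve_facts hF j
  apply multilinear_zero (fun k => {x : F.V (τ k) | ∃ μ : Ω, F.Φ (τ k) x = μ • x})
    (fun k => hF.semisimple (τ k))
  intro v hv
  choose μ hμ using hv
  have h1 : ∀ g : MultilinearMap Ω (fun b => F.V (τ b)) (F.M j),
      g (fun k => F.Φ (τ k) (v k)) = (∏ k, μ k) • g v := by
    intro g
    have h2 : (fun k => F.Φ (τ k) (v k)) = fun k => μ k • v k := funext fun k => hμ k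
    rw [h2, MultilinearMap.map_smul_univ]
  have h2 : f' v = (∏ k, μ k) • F.G j (f v) - b • f v := by
    rw [h v, h1, map_smul]
  have h3 := h' v
  rw [h1, map_smul, h2] at h3
  rw [h2]
  exact diag_semi (F.G j) hdiag _ _ _ h3

/-- **The conjecture of Tate and semisimplicity**. -/
theorem tateFacts_of_split {e : ℕ} (he : 0 < e) {D : ℕ} {C : CycData Ω}
    (hC : IsCyc (p ^ e) D C) (hS : IsSplit p e C) : TateFacts (p ^ e) C := by
  have hq1 : 1 < p ^ e := Nat.one_lt_pow he.ne' (Fact.out : p.Prime).one_lt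
  have hq0 : ((p ^ e : ℕ) : Ω) ≠ 0 :=
    Nat.cast_ne_zero.2 (pow_ne_zero _ (Fact.out : p.Prime).ne_zero)
  obtain ⟨⟨m, κ, F, Z, comp⟩, hm, hF, hsep, hfrob, halg⟩ := hS
  simp only at hm hF hsep hfrob halg comp
  have hQ : ((p ^ (e * m) : ℕ) : Ω) = ((p ^ e : ℕ) : Ω) ^ m := by
    push_cast
    rw [pow_mul]
  have hpow : ∀ (n c : ℕ) (h : C.H n), C.Fr n h = ((p ^ e : ℕ) : Ω) ^ c • h →
      (C.Fr n ^ m) h = ((p ^ (e * m) : ℕ) : Ω) ^ c • h := by
    intro n c h hh
    rw [hQ, ← pow_mul, mul_comm m c, pow_mul]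
    have h1 : ∀ k : ℕ, (C.Fr n ^ k) h = (((p ^ e : ℕ) : Ω) ^ c) ^ k • h := by
      intro k
      induction k with
      | zero => simp
      | succ k ih =>
        rw [pow_succ]
        change (C.Fr n ^ k) (C.Fr n h) = _
        rw [hh, map_smul, ih, smul_smul, pow_succ']
    exact h1 m
  refine ⟨?_, ?_, ?_, ?_⟩
  · intro c h hh
    apply halg c h hh
    intro σ i j τ hij
    apply pair_products (Nat.mul_pos he hm) hF hij
    intro v
    rw [← hfrob, hpow _ c h hh, map_smul]
    rfl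
  · intro c h hh
    set g := C.Fr (2 * c) h - ((p ^ e : ℕ) : Ω) ^ c • h with hg
    set A : Ω := ((p ^ e : ℕ) : Ω) ^ c with hA
    have hFh : C.Fr _ h = A • h + g := by rw [hg]; abel
    have h1 : ∀ k : ℕ, (C.Fr (2 * c) ^ k) h = A ^ k • h + ((k : Ω) * A ^ (k - 1)) • g := by
      intro k
      induction k with
      | zero => simp
      | succ k ih =>
        rw [pow_succ']
        change C.Fr (2 * c) ((C.Fr (2 * c) ^ k) h) = _
        rw [ih, map_add, map_smul, map_smul, hFh, hh, smul_add, smul_smul, smul_smul, add_assoc,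
          ← add_smul, pow_succ]
        congr 2
        rcases Nat.eq_zero_or_pos k with rfl | hk
        · simp
        · obtain ⟨l, rfl⟩ : ∃ l, k = l + 1 := ⟨k - 1, by omega⟩
          simp only [Nat.add_sub_cancel]
          push_cast
          ring
    have hA0 : A ≠ 0 := pow_ne_zero _ hq0
    have hgm : (C.Fr (2 * c) ^ m) g = A ^ m • g := by
      have h2 := hpow _ c g hh
      rw [hQ, ← pow_mul, mul_comm m c, pow_mul] at h2
      exact h2
    have hzero : (C.Fr (2 * c) ^ m) h - A ^ m • h = 0 := by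
      apply hsep
      intro σ i j τ _
      apply comp_semi hF τ (A ^ m) (comp σ (2 * c) i j τ h)
      · intro v
        rw [← hfrob, map_sub, map_smul]
        rfl
      · intro v
        have h4 : (C.Fr (2 * c) ^ m) ((C.Fr (2 * c) ^ m) h - A ^ m • h) =
            A ^ m • ((C.Fr (2 * c) ^ m) h - A ^ m • h) := by
          rw [h1 m, add_sub_cancel_left, map_smul, hgm, smul_comm]
        rw [← hfrob, h4, map_smul]
        exact sub_self _
    rw [h1 m, add_sub_cancel_left] at hzero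
    have h3 : g = 0 := (smul_eq_zero.1 hzero).resolve_left
      (mul_ne_zero (Nat.cast_ne_zero.2 hm.ne') (pow_ne_zero _ hA0))
    rw [hg, sub_eq_zero] at h3
    exact h3
  · intro n z hnz f hf
    by_contra hf0
    obtain ⟨P, hP, hP0, hw⟩ := hC.weil n
    have h1 := eigen_root hP0 hf hf0
    have h2 : aeval (((p ^ e : ℕ) : AlgebraicClosure ℚ) ^ z) P = 0 := by
      obtain ⟨τ₀⟩ : Nonempty (AlgebraicClosure ℚ →ₐ[ℚ] Ω) := ⟨IsAlgClosed.lift⟩
      apply τ₀.toRingHom.injective
      have h3 := Polynomial.aeval_algHom_apply (τ₀.restrictScalars ℤ)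
        (((p ^ e : ℕ) : AlgebraicClosure ℚ) ^ z) P
      rw [map_zero]
      refine h3.symm.trans ?_
      have h4 : (τ₀.restrictScalars ℤ) (((p ^ e : ℕ) : AlgebraicClosure ℚ) ^ z) =
          ((p ^ e : ℕ) : Ω) ^ z := by
        change τ₀ _ = _
        rw [map_zpow₀, map_natCast]
      rw [h4]
      exact h1
    obtain ⟨φ⟩ : Nonempty (AlgebraicClosure ℚ →ₐ[ℚ] ℂ) := ⟨IsAlgClosed.lift⟩
    have h3 := hw _ h2 φ.toRingHom
    rw [map_zpow₀, map_natCast, norm_zpow, Complex.norm_natCast] at h3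
    have h4 : ((p ^ e : ℕ) : ℝ) ^ (2 * z) = ((p ^ e : ℕ) : ℝ) ^ (n : ℤ) := by
      rw [zpow_natCast, ← h3, mul_comm, zpow_mul]
      rfl
    have h5 : (1 : ℝ) < ((p ^ e : ℕ) : ℝ) := by exact_mod_cast hq1
    exact hnz (zpow_right_injective₀ (by linarith) h5.ne' h4).symm
  · intro n
    obtain ⟨P, hP, hP0, -⟩ := hC.weil n
    exact ⟨P, hP.ne_zero, hP0⟩

end

end Pool.Agent.KS6_19.GF.Bun
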