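import Pool.Agent.KS6_19.GF.Defs
import Pool.Agent.KS6_19.GF.SplitTate
import Pool.Agent.KS6_19.GF.CycLink
import Pool.Graph.R_seed8.W495.FM.Hom

/-!
# The conjectures of Tate and Beilinson for the class
-/

set_option autoImplicit false
set_option linter.unusedSectionVars false

namespace Pool.Agent.KS6_19.GF

open Polynomial Pool.Agent.W495.FM

noncomputable section

variable {Ω : Type} [Field Ω] {q D : ℕ}

/-- the bundled data -/
@[reducible] def bunCyc (C : CycData Ω) (hW : IsWeil q D C) (hC : IsCorr q C) (hP : IsProd D C) :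
    Bun.CycData Ω where
  H := C.H
  CH := C.CH
  Mot := C.Mot
  Corr := C.Corr
  Fr n := (hW.weil n).choose_spec.2.choose
  cl j := AddMonoidHom.mk' (C.cl j) (hC.cl_add j)
  actC j := (hC.chow j).choose
  actH n := (hC.coh n).choose
  actM i n := (hC.mot i n).choose
  frob := C.frob
  prod := C.prod
  int i j := (hP.bilinear i j).choose
  pair i j := (hW.bilinear i j).choose

section
variable (C : CycData Ω) (hW : IsWeil q D C) (hC : IsCorr q C) (hP : IsProd D C)

theorem bunCyc_Fr (n : ℕ) (h : C.H n) : (bunCyc C hW hC hP).Fr n h = C.Fr n h :=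
  ((hW.weil n).choose_spec.2.choose_spec.1 h).symm

theorem bunCyc_actC (j : ℕ) (c : C.Corr) (h : C.CH j) :
    (bunCyc C hW hC hP).actC j c h = C.actC j c h := ((hC.chow j).choose_spec c h).symm

theorem bunCyc_actH (j : ℕ) (c : C.Corr) (h : C.H j) :
    (bunCyc C hW hC hP).actH j c h = C.actH j c h := ((hC.coh j).choose_spec c h).symm

theorem bunCyc_actM (i n : ℤ) (c : C.Corr) (h : C.Mot i n) :
    (bunCyc C hW hC hP).actM i n c h = C.actM i n c h := ((hC.mot i n).choose_spec c h).symm

theorem bunCyc_int (i j : ℕ) (x : C.CH i) (y : C.CH j) :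
    (bunCyc C hW hC hP).int i j x y = C.int i j x y := ((hP.bilinear i j).choose_spec x y).symm

theorem bunCyc_pair (i j : ℕ) (x : C.H (2 * i)) (y : C.H (2 * j)) :
    (bunCyc C hW hC hP).pair i j x y = C.pair i j x y :=
  ((hW.bilinear i j).choose_spec x y).symm

theorem bunCyc_isCyc : Bun.IsCyc q D (bunCyc C hW hC hP) := by
  have eF := bunCyc_Fr C hW hC hP
  have eC := bunCyc_actC C hW hC hP
  have eH := bunCyc_actH C hW hC hP
  have eM := bunCyc_actM C hW hC hP
  have eI := bunCyc_int C hW hC hP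
  have eP := bunCyc_pair C hW hC hP
  refine ⟨⟨hW.finite, hW.top, ?_, ?_, ?_, ?_⟩, ⟨?_, ?_, ?_, ?_, hC.mot_neg, ?_⟩,
    ⟨?_, ?_, ?_, ?_, ?_⟩⟩
  · intro n
    obtain ⟨h1, h2⟩ := (hW.weil n).choose_spec.1
    exact ⟨_, h1, (hW.weil n).choose_spec.2.choose_spec.2, h2⟩
  · intro i j hij f hf
    exact hW.left i j hij f fun g => (eP i j f g).symm.trans (hf g)
  · intro i j hij f hf
    exact hW.right i j hij f fun g => (eP i j g f).symm.trans (hf g)
  · intro i j hij f g
    refine (eP i j _ _).trans ?_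
    rw [eP i j f g, ← hW.frob_pair i j hij f g]
    exact congrArg₂ _ (eF _ _) (eF _ _)
  · intro j c x
    refine ((congrArg (C.cl j) (eC j c x)).trans (hC.act_cl j c x)).trans ?_
    exact (eH (2 * j) c (C.cl j x)).symm
  · intro n
    ext h
    exact (eH n C.frob h).trans ((hC.frob_coh n h).trans (eF n h).symm)
  · exact fun j x => (eC j C.frob x).trans (hC.frob_chow j x)
  · exact fun i n x => (eM i n C.frob x).trans (hC.frob_mot i n x)
  · exact fun c hc => hC.nilpotent c fun n f => (eH n c f).symm.trans (hc n f)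
  · intro i j hij y z
    refine (congrArg (fun t : ℚ => (t : Ω)) (eI i j y z)).trans ?_
    exact (hP.int_cl i j hij y z).trans (eP i j _ _).symm
  · intro i j hij y z x
    refine (eC j (C.prod i j y z) x).trans ((hP.prod_chow i j hij y z x).trans ?_)
    exact congrArg (fun t : ℚ => t • z) (eI i j y x).symm
  · intro i j hij y z f
    refine (eH (2 * j) (C.prod i j y z) f).trans ((hP.prod_coh i j hij y z f).trans ?_)
    exact congrArg (fun t : Ω => t • C.cl j z) (eP i j (C.cl i y) f).symm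
  · exact fun i j n hij hn y z f => (eH n (C.prod i j y z) f).trans
      (hP.prod_coh_ne i j n hij hn y z f)
  · exact fun i j hij a b hab y z x => (eM a b (C.prod i j y z) x).trans
      (hP.prod_mot i j hij a b hab y z x)

theorem bunCyc_isHomologyOf {V : Type} {T : Homology Ω V} {X : V}
    (h : IsHomologyOf T X q D C) : Bun.IsHomologyOf T X q D (bunCyc C hW hC hP) where
  motivic := h.motivic
  neg := h.neg
  coh n c := by
    obtain ⟨β, h1, h2, h3⟩ := h.coh n c
    refine ⟨β, h1, h2, fun e => (h3 e).trans ?_⟩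
    exact congrArg (fun y => ((q : Ω) ^ c)⁻¹ • y) (bunCyc_Fr C hW hC hP n (β e)).symm
  chow c := by
    obtain ⟨f, β, h1, h2, ⟨h3, h4, h5⟩, h6⟩ := h.chow c
    refine ⟨f, β, h1, h2, ⟨h3, h4, fun e => (h5 e).trans ?_⟩, h6⟩
    rw [zpow_natCast]
    exact congrArg (fun y => ((q : Ω) ^ c)⁻¹ • y)
      (bunCyc_Fr C hW hC hP (2 * c) (β e)).symm

end

/-- the bundled factors -/
@[reducible] def bunFactor {κ : Type} (F : FactorData Ω κ) (R : ℤ[X]) (h : ∀ k, IsLin Ω (F.Φ k))
    (hG : ∀ j, IsLin Ω (F.G j)) : Bun.FactorData Ω κ where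
  V := F.V
  Φ k := (h k).choose
  M := F.M
  G j := (hG j).choose
  R := R

theorem isLin_G {p : ℕ} [Fact p.Prime] {Q : ℕ} {κ : Type} {F : FactorData Ω κ}
    (hF : IsFactorData p Q F) (j : ℕ) : IsLin Ω (F.G j) := by
  rcases lt_trichotomy j 1 with h | rfl | h
  · obtain rfl : j = 0 := by omega
    exact ⟨LinearMap.id, fun x => hF.curve_zero x⟩
  · exact hF.curve_one.1.1
  · by_cases h2 : j = 2
    · subst h2
      exact ⟨(Q : Ω) • LinearMap.id, fun x => hF.curve_two x⟩
    · exact ⟨0, fun x => hF.curve_top j (by omega) _⟩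

theorem annihilated_choose {A : Type} [AddCommGroup A] [Module Ω A] {f : A → A}
    (h : IsLin Ω f) {P : ℤ[X]} (hP : IsAnnihilated Ω P f) : aeval h.choose P = 0 := by
  obtain ⟨φ, h1, h2⟩ := hP
  have h3 : h.choose = φ := by
    ext x
    rw [← h.choose_spec, h1]
  rw [h3, h2]

theorem bunFactor_is {p : ℕ} [Fact p.Prime] {Q : ℕ} {κ : Type} {F : FactorData Ω κ}
    (hF : IsFactorData p Q F) {R : ℤ[X]} (hR : HasWeight Q 1 R)
    (hR' : IsAnnihilated Ω R (F.G 1)) :
    Bun.IsFactorData p Q (bunFactor F R (fun k => (hF.semisimple k).1) (isLin_G hF)) where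
  kind := by
    rcases hF.kind with ⟨P, δ, h1, h2⟩ | ⟨hp, K, _, e, a, b, c, hK, h⟩
    · exact Or.inl ⟨P, δ, fun k => ⟨annihilated_choose _ (h1 k).1, (h1 k).2⟩, h2⟩
    · refine Or.inr ⟨hp, K, _, e, a, b, c, hK, fun k => ⟨(h k).1, (h k).2.1, (h k).2.2.1, ?_⟩⟩
      obtain ⟨φ, h3, h4⟩ := (h k).2.2.2
      have h5 : (hF.semisimple k).1.choose = φ := by
        ext x
        rw [← (hF.semisimple k).1.choose_spec, h3]
      change Pool.Agent.KS6_5.KL.IsFirstCohomology p (e k) 1 (a k) (b k) (c k)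
        (hF.semisimple k).1.choose
      rw [h5]
      exact h4
  finite := hF.finite
  semisimple k := by
    have h1 := (hF.semisimple k).2
    have h2 : {x : F.V k | ∃ μ : Ω, F.Φ k x = μ • x} =
        {x : F.V k | ∃ μ : Ω, (hF.semisimple k).1.choose x = μ • x} := by
      ext x
      simp only [Set.mem_ofPred_eq, (hF.semisimple k).1.choose_spec x]
    rw [h2] at h1
    exact h1
  curve_finite := hF.curve_finite
  curve_zero x := ((isLin_G hF 0).choose_spec x).symm.trans (hF.curve_zero x)
  curve_two x := ((isLin_G hF 2).choose_spec x).symm.trans (hF.curve_two x)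
  curve_top := hF.curve_top
  curve_semisimple := by
    have h1 := hF.curve_one.1.2
    have h2 : {x : F.M 1 | ∃ μ : Ω, F.G 1 x = μ • x} =
        {x : F.M 1 | ∃ μ : Ω, (isLin_G hF 1).choose x = μ • x} := by
      ext x
      simp only [Set.mem_ofPred_eq, (isLin_G hF 1).choose_spec x]
    rw [h2] at h1
    exact h1
  curve_monic := hR.1
  curve_char := annihilated_choose _ hR'
  curve_weil z hz φ := by
    have h1 := hR.2 z hz φ
    rwa [pow_one] at h1

theorem isSplit_bun {p e : ℕ} [Fact p.Prime] (C : CycData Ω) (hW : IsWeil q D C)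
    (hC : IsCorr q C) (hP : IsProd D C) (S : Splitting C) (hS : IsSplitting p e S) :
    Bun.IsSplit p e (bunCyc C hW hC hP) := by
  obtain ⟨R, hR, hR'⟩ := hS.factors.curve_one.2
  let F := bunFactor S.F R (fun k => (hS.factors.semisimple k).1) (isLin_G hS.factors)
  have hΦ : ∀ k x, F.Φ k x = S.F.Φ k x := fun k x =>
    ((hS.factors.semisimple k).1.choose_spec x).symm
  have hG : ∀ j x, F.G j x = S.F.G j x := fun j x =>
    ((isLin_G hS.factors j).choose_spec x).symm
  have hpow : ∀ (k : S.κ) (s : ℕ) (x : S.F.V k), (F.Φ k ^ s) x = (S.F.Φ k)^[s] x := by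
    intro k s x
    rw [Module.End.pow_apply]
    congr 1
    funext y
    exact hΦ k y
  have hpowG : ∀ (j : ℕ) (s : ℕ) (x : S.F.M j), (F.G j ^ s) x = (S.F.G j)^[s] x := by
    intro j s x
    rw [Module.End.pow_apply]
    congr 1
    funext y
    exact hG j y
  have hpowF : ∀ (n : ℕ) (s : ℕ) (x : C.H n),
      ((bunCyc C hW hC hP).Fr n ^ s) x = (C.Fr n)^[s] x := by
    intro n s x
    rw [Module.End.pow_apply]
    congr 1
    funext y
    exact bunCyc_Fr C hW hC hP n y
  have hcomp : ∀ z n i j τ h v, (hS.multilinear z n i j τ).choose h v = S.comp z n i j τ h v :=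
    fun z n i j τ h v => ((hS.multilinear z n i j τ).choose_spec h v).symm
  refine ⟨⟨S.m, S.κ, F, S.Z, fun z n i j τ => (hS.multilinear z n i j τ).choose⟩, hS.pos,
    bunFactor_is hS.factors hR hR', ?_, ?_, ?_⟩
  · intro n h hh
    refine hS.kunneth n h fun z i j τ hij v => ?_
    rw [← hcomp, hh z i j τ hij]
    rfl
  · intro z n i j τ h v
    simp only
    rw [hG]
    have h1 := hS.frob z n i j τ h v
    rw [hpowF]
    refine (hcomp z n i j τ _ v).trans (h1.trans ?_)
    congr 1
    rw [← hcomp]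
    congr 1
    funext a
    exact (hΦ _ _).symm
  · intro c h hh hmem
    refine hS.divisors c h ?_ fun z i j τ hij => ?_
    · rw [← bunCyc_Fr C hW hC hP]
      exact hh
    · have h1 := hmem z i j τ hij
      unfold Bun.Splitting.products at h1
      rw [Submodule.mem_span_set'] at h1
      obtain ⟨r, t, ψ, hψ⟩ := h1
      refine ⟨r, fun l v => t l • (ψ l : MultilinearMap Ω (fun a => S.F.V (τ a)) (S.F.M j)) v,
        fun l => ?_, fun v => ?_⟩
      · obtain ⟨s, hs, P, f, g, hf, ⟨k, hk, hg⟩, hψl⟩ := (ψ l).2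
        refine ⟨s, hs, P, fun T => f T, fun v => t l • g v, ?_, ⟨t l • g, fun v => rfl⟩,
          ⟨k, hk, fun v => ?_⟩, fun v => ?_⟩
        · intro T hT
          obtain ⟨h2, k', hk', h3⟩ := hf T hT
          refine ⟨h2, ⟨f T, fun v => rfl⟩, k', hk', fun v => ?_⟩
          rw [← h3 v]
          congr 1
          funext a
          exact (hpow _ _ _).symm
        · have h4 : (((p ^ (e * S.m) : ℕ) : Ω) ^ P.parts.card) ^ k •
              (F.G j ^ k) (g fun a => (F.Φ (τ a) ^ k) (v a)) =
              (((p ^ (e * S.m) : ℕ) : Ω) ^ c) ^ k • g v := hg v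
          have h5 : g (fun a => (S.F.Φ (τ a))^[k] (v a)) =
              g (fun a => (F.Φ (τ a) ^ k) (v a)) := by
            congr 1
            funext a
            exact (hpow _ _ _).symm
          have h6 : (S.F.G j)^[k] (t l • g fun a => (S.F.Φ (τ a))^[k] (v a)) =
              t l • (F.G j ^ k) (g fun a => (F.Φ (τ a) ^ k) (v a)) := by
            rw [h5, ← hpowG, map_smul]
          refine (congrArg (fun y => (((p ^ (e * S.m) : ℕ) : Ω) ^ P.parts.card) ^ k • y)
            h6).trans ?_
          refine (smul_comm _ _ _).trans ((congrArg (fun y => t l • y) h4).trans ?_)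
          exact smul_comm _ _ _
        · exact (congrArg (fun y => t l • y) (hψl v)).trans (smul_comm _ _ _)
      · rw [← hcomp, ← hψ]
        simp only [sum_apply, smul_apply]

variable [CharZero Ω] [IsAlgClosed Ω] {V : Type} {H : Homology Ω V} {p e : ℕ} [Fact p.Prime]

theorem tb_base (he : 0 < e) (hH : IsHomology H) {X : V} (hX : IsBase p e H X) : TB H X := by
  obtain ⟨D, C, hW, hC, hP, ⟨S, hS⟩, hX⟩ := hX
  exact Bun.tb_of_tate hH (bunCyc_isCyc C hW hC hP)
    (pow_ne_zero _ (Fact.out : p.Prime).ne_zero)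
    (Bun.tateFacts_of_split he (bunCyc_isCyc C hW hC hP) (isSplit_bun C hW hC hP S hS))
    (bunCyc_isHomologyOf C hW hC hP hX)

theorem tb_class (he : 0 < e) (hH : IsHomology H) {X : V} (hX : InClass p e H X) : TB H X :=
  tb_generated hH (fun _ hX => tb_base he hH hX) hX

end

end Pool.Agent.KS6_19.GF
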