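import Pool.Graph.R_seed8.W495.FM.HomDefs

/-!
# Cycles on smooth projective schemes over a finite field: definitions

`X` is a smooth projective scheme of pure dimension `D` over the field with `q` elements.
-/

set_option autoImplicit false

namespace Pool.Agent.KS6_19.GF.Bun

open Pool.Agent.W495.FM Polynomial

noncomputable section

/-- Data on `X`, all groups of cycles with rational coefficients: the `ℓ`-adic cohomology groups
`H n = H^n(X, ℚ_ℓ) ⊗ Ω` over the algebraic closure with the pull-back `Fr` by the Frobenius endomorphism,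
the Chow groups `CH j` of cycles of codimension `j`, the motivic cohomology groups
`Mot i n = H^i(X, ℚ(n))`, the ring `Corr` of correspondences of degree zero from `X` to itself (the Chow
group `CH^D(X × X)`, with composition) with its operations `actC`, `actH`, `actM` on these groups, the
cycle classes `cl`, the correspondence `frob` given by the Frobenius endomorphism, the products
`prod y z = y × z`, the intersection numbers `int y z` of cycles of complementary codimension, and the
pairing `pair` of cohomology classes of complementary degree given by the cup product and the trace. -/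
structure CycData (Ω : Type) [Field Ω] where
  H : ℕ → Type
  [hgrp : ∀ n, AddCommGroup (H n)]
  [hmod : ∀ n, Module Ω (H n)]
  CH : ℕ → Type
  [cgrp : ∀ j, AddCommGroup (CH j)]
  [cmod : ∀ j, Module ℚ (CH j)]
  Mot : ℤ → ℤ → Type
  [mgrp : ∀ i n, AddCommGroup (Mot i n)]
  [mmod : ∀ i n, Module ℚ (Mot i n)]
  Corr : Type
  [ring : Ring Corr]
  Fr : ∀ n, H n →ₗ[Ω] H n
  cl : ∀ j, CH j →+ H (2 * j)
  actC : ∀ j, Corr →+* Module.End ℚ (CH j)
  actH : ∀ n, Corr →+* Module.End Ω (H n)
  actM : ∀ i n, Corr →+* Module.End ℚ (Mot i n)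
  frob : Corr
  prod : ∀ i j, CH i → CH j → Corr
  int : ∀ i j, CH i →ₗ[ℚ] CH j →ₗ[ℚ] ℚ
  pair : ∀ i j, H (2 * i) →ₗ[Ω] H (2 * j) →ₗ[Ω] Ω

attribute [instance] CycData.hgrp CycData.hmod CycData.cgrp CycData.cmod CycData.mgrp
  CycData.mmod CycData.ring

variable {Ω : Type} [Field Ω]

/-- The cohomology groups: they are finite-dimensional and zero in degrees `> 2 D`, the conjectures of
Weil (Deligne), and Poincaré duality. -/
structure IsWeil (q D : ℕ) (C : CycData Ω) : Prop where
  finite : ∀ n, FiniteDimensional Ω (C.H n)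
  top : ∀ n, 2 * D < n → ∀ h : C.H n, h = 0
  weil : ∀ n, ∃ P : ℤ[X], P.Monic ∧ aeval (C.Fr n) P = 0 ∧
    ∀ z : AlgebraicClosure ℚ, aeval z P = 0 → ∀ φ : AlgebraicClosure ℚ →+* ℂ,
      ‖φ z‖ ^ 2 = (q : ℝ) ^ n
  left : ∀ i j, i + j = D → ∀ f, (∀ g, C.pair i j f g = 0) → f = 0
  right : ∀ i j, i + j = D → ∀ g, (∀ f, C.pair i j f g = 0) → g = 0
  frob_pair : ∀ i j, i + j = D → ∀ f g,
    C.pair i j (C.Fr _ f) (C.Fr _ g) = (q : Ω) ^ D * C.pair i j f g

/-- The operation of correspondences: the cycle class map is compatible with them (`act_cl`); the Frobenius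
endomorphism operates by `Fr` on the cohomology, and by `q ^ n` on the motivic cohomology groups with
twist `n`, in particular by `q ^ j` on the cycles of codimension `j`; the motivic cohomology groups
with negative twists vanish; and homologically trivial correspondences are nilpotent (Kimura), if
the Chow motive of `X` is finite-dimensional. -/
structure IsCorr (q : ℕ) (C : CycData Ω) : Prop where
  act_cl : ∀ j c x, C.cl j (C.actC j c x) = C.actH (2 * j) c (C.cl j x)
  frob_coh : ∀ n, C.actH n C.frob = C.Fr n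
  frob_chow : ∀ j x, C.actC j C.frob x = (q : ℚ) ^ j • x
  frob_mot : ∀ (i : ℤ) (n : ℕ) x, C.actM i n C.frob x = (q : ℚ) ^ n • x
  mot_neg : ∀ i n, n < 0 → ∀ x : C.Mot i n, x = 0
  nilpotent : ∀ c, (∀ n f, C.actH n c f = 0) → IsNilpotent c

/-- The correspondence `y × z` maps `x` to the multiple of `z` by the intersection number of `y` and
`x`, and it maps the other groups to zero; its operation on motivic cohomology factors over the
groups `H^a(point, ℚ(b))`, which vanish for `a ≠ 2 b` (Quillen). -/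
structure IsProd (D : ℕ) (C : CycData Ω) : Prop where
  int_cl : ∀ i j, i + j = D → ∀ y z, (C.int i j y z : Ω) = C.pair i j (C.cl i y) (C.cl j z)
  prod_chow : ∀ i j, i + j = D → ∀ y z x, C.actC j (C.prod i j y z) x = C.int i j y x • z
  prod_coh : ∀ i j, i + j = D → ∀ y z f,
    C.actH (2 * j) (C.prod i j y z) f = C.pair i j (C.cl i y) f • C.cl j z
  prod_coh_ne : ∀ i j n, i + j = D → n ≠ 2 * j → ∀ y z f, C.actH n (C.prod i j y z) f = 0
  prod_mot : ∀ i j, i + j = D → ∀ a b, a ≠ 2 * b → ∀ y z x, C.actM a b (C.prod i j y z) x = 0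

/-- The properties of these groups. -/
structure IsCyc (q D : ℕ) (C : CycData Ω) : Prop extends IsWeil q D C, IsCorr q C, IsProd D C

/-- The groups of homology of `X` are given by these groups: `H_(2 D - n)(X, ℚ(D - c)) = H^n(X, ℚ(c))`. -/
structure IsHomologyOf {V : Type} (T : Homology Ω V) (X : V) (q D : ℕ) (C : CycData Ω) : Prop where
  motivic : ∀ n c : ℤ, ∃ f : T.M X (2 * D - n) (D - c) → C.Mot n c,
    IsAdd f ∧ Function.Injective f
  neg : ∀ n c : ℤ, n < 0 → ∀ e : T.E X (2 * D - n) (D - c), e = 0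
  coh : ∀ (n : ℕ) (c : ℤ), ∃ β : T.E X (2 * D - n) (D - c) → C.H n,
    IsLin Ω β ∧ Function.Bijective β ∧ ∀ e, β (T.frob X _ _ e) = ((q : Ω) ^ c)⁻¹ • C.Fr n (β e)
  chow : ∀ c : ℕ, ∃ (f : T.M X (2 * D - 2 * c) (D - c) → C.CH c)
    (β : T.E X (2 * D - 2 * c) (D - c) → C.H (2 * c)),
    IsAdd f ∧ Function.Bijective f ∧
    (IsLin Ω β ∧ Function.Bijective β ∧
      ∀ e, β (T.frob X _ _ e) = ((q : Ω) ^ c)⁻¹ • C.Fr _ (β e)) ∧
    ∀ x, β (T.reg X _ _ x) = C.cl c (f x)

end

end Pool.Agent.KS6_19.GF.Bun
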