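import Pool.Graph.R_seed8.W495.FM.HomDefs
import Pool.Agent.KS6_5.OC.Defs
import Pool.Agent.KS6_5.KL.Defs

/-!
# Products of abelian varieties and curves over a finite field: definitions
-/

set_option autoImplicit false

namespace Pool.Agent.KS6_19.GF

open Polynomial Pool.Agent.W495.FM

noncomputable section

/-! ## Linear algebra -/

section
variable (K : Type) [Field K] {A B C : Type} [AddCommGroup A] [Module K A] [AddCommGroup B]
  [Module K B] [AddCommGroup C] [Module K C]

/-- `f` is a linear operator annihilated by the polynomial `P`. -/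
def IsAnnihilated (P : ℤ[X]) (f : A → A) : Prop :=
  ∃ φ : A →ₗ[K] A, (∀ x, f x = φ x) ∧ aeval φ P = 0

/-- `f` is a linear operator and there is a basis of eigenvectors. -/
def IsDiagonalizable (f : A → A) : Prop :=
  IsLin K f ∧ Submodule.span K {x : A | ∃ μ : K, f x = μ • x} = ⊤

/-- `f` is bilinear. -/
def IsBilinear (f : A → B → K) : Prop :=
  ∃ φ : A →ₗ[K] B →ₗ[K] K, ∀ x y, f x y = φ x y

/-- `act` is an operation of the ring `R` by linear operators. -/
def IsAction {R : Type} [Ring R] (act : R → A → A) : Prop :=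
  ∃ ρ : R →+* Module.End K A, ∀ c x, act c x = ρ c x

variable {ι : Type} {V : ι → Type} [∀ k, AddCommGroup (V k)] [∀ k, Module K (V k)]

/-- `f` is multilinear. -/
def IsMultilinear (f : (∀ k, V k) → B) : Prop :=
  ∃ φ : MultilinearMap K V B, ∀ v, f v = φ v

/-- `f` is linear in the first and multilinear in the second variable. -/
def IsLinearMultilinear (f : A → (∀ k, V k) → B) : Prop :=
  ∃ φ : A →ₗ[K] MultilinearMap K V B, ∀ x v, f x v = φ x v

end

/-- All complex absolute values of the roots of `P` are `q ^ (n / 2)`. -/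
def HasWeight (q n : ℕ) (P : ℤ[X]) : Prop :=
  P.Monic ∧ ∀ z : AlgebraicClosure ℚ, aeval z P = 0 → ∀ φ : AlgebraicClosure ℚ →+* ℂ,
    ‖φ z‖ ^ 2 = (q : ℝ) ^ n

/-! ## Smooth projective schemes -/

/-- Data on a smooth projective scheme `X` over a finite field, all groups of cycles with rational
coefficients: the `ℓ`-adic cohomology groups `H n = H^n(X, ℚ_ℓ) ⊗ Ω` over the algebraic closure with the
pull-back `Fr` by the Frobenius endomorphism, the Chow groups `CH j` of cycles of codimension `j`, the
motivic cohomology groups `Mot i n = H^i(X, ℚ(n))`, the ring `Corr` of correspondences of degree zero from `X`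
to itself (the Chow group of cycles of codimension `dim X` on `X × X`, with composition) with its operations
`actC`, `actH`, `actM` on these groups, the cycle classes `cl`, the correspondence `frob` given by the
Frobenius endomorphism, the products `prod i j y z = y × z`, the intersection numbers `int i j y z` of
cycles of complementary codimension, and the pairing `pair` of cohomology classes of complementary degree
given by the cup product and the trace. -/
structure CycData (Ω : Type) [Field Ω] where
  H : ℕ → Type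
  [hgrp : ∀ n, AddCommGroup (H n)]
  [hmod : ∀ n, Module Ω (H n)]
  CH : ℕ → Type
  [cgrp : ∀ j, AddCommGroup (CH j)]
  [cmod : ∀ j, Module ℚ (CH j)]
  Mot : ℤ → ℤ → Type
  [mgrp : ∀ i n, AddCommGroup (Mot i n)]
  [mmod : ∀ i n, Module ℚ (Mot i n)]
  Corr : Type
  [ring : Ring Corr]
  Fr : ∀ n, H n → H n
  cl : ∀ j, CH j → H (2 * j)
  actC : ∀ j, Corr → CH j → CH j
  actH : ∀ n, Corr → H n → H n
  actM : ∀ i n, Corr → Mot i n → Mot i n
  frob : Corr
  prod : ∀ i j, CH i → CH j → Corr
  int : ∀ i j, CH i → CH j → ℚ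
  pair : ∀ i j, H (2 * i) → H (2 * j) → Ω

attribute [instance] CycData.hgrp CycData.hmod CycData.cgrp CycData.cmod CycData.mgrp
  CycData.mmod CycData.ring

/-- The cohomology groups of a smooth projective scheme of dimension `D` over the field with `q`
elements: they are finite-dimensional and zero in degrees `> 2 D`, the conjectures of Weil (Deligne),
and Poincaré duality. -/
structure IsWeil {Ω : Type} [Field Ω] (q D : ℕ) (C : CycData Ω) : Prop where
  finite : ∀ n, FiniteDimensional Ω (C.H n)
  top : ∀ n, 2 * D < n → ∀ h : C.H n, h = 0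
  weil : ∀ n, ∃ P, HasWeight q n P ∧ IsAnnihilated Ω P (C.Fr n)
  bilinear : ∀ i j, IsBilinear Ω (C.pair i j)
  left : ∀ i j, i + j = D → ∀ f, (∀ g, C.pair i j f g = 0) → f = 0
  right : ∀ i j, i + j = D → ∀ g, (∀ f, C.pair i j f g = 0) → g = 0
  frob_pair : ∀ i j, i + j = D → ∀ f g,
    C.pair i j (C.Fr (2 * i) f) (C.Fr (2 * j) g) = (q : Ω) ^ D * C.pair i j f g

/-- The operation of correspondences: the cycle class map is compatible with them (`act_cl`); the
Frobenius endomorphism operates by `Fr` on the cohomology, and by `q ^ n` on the motivic cohomology groups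
with twist `n`, in particular by `q ^ j` on the cycles of codimension `j`; the motivic cohomology groups
with negative twists vanish; and homologically trivial correspondences are nilpotent (Kimura), if
the Chow motive of `X` is finite-dimensional. -/
structure IsCorr {Ω : Type} [Field Ω] (q : ℕ) (C : CycData Ω) : Prop where
  cl_add : ∀ j, IsAdd (C.cl j)
  chow : ∀ j, IsAction ℚ (C.actC j)
  coh : ∀ n, IsAction Ω (C.actH n)
  mot : ∀ i n, IsAction ℚ (C.actM i n)
  act_cl : ∀ j c x, C.cl j (C.actC j c x) = C.actH (2 * j) c (C.cl j x)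
  frob_coh : ∀ n h, C.actH n C.frob h = C.Fr n h
  frob_chow : ∀ j x, C.actC j C.frob x = (q : ℚ) ^ j • x
  frob_mot : ∀ (i : ℤ) (n : ℕ) x, C.actM i n C.frob x = (q : ℚ) ^ n • x
  mot_neg : ∀ i n, n < 0 → ∀ x : C.Mot i n, x = 0
  nilpotent : ∀ c, (∀ n f, C.actH n c f = 0) → IsNilpotent c

/-- The correspondence `y × z` maps `x` to the multiple of `z` by the intersection number of `y` and
`x`, and it maps the other groups to zero; its operation on motivic cohomology factors over the
groups `H^a(point, ℚ(b))`, which vanish for `a ≠ 2 b` (Quillen). -/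
structure IsProd {Ω : Type} [Field Ω] (D : ℕ) (C : CycData Ω) : Prop where
  bilinear : ∀ i j, IsBilinear ℚ (C.int i j)
  int_cl : ∀ i j, i + j = D → ∀ y z, (C.int i j y z : Ω) = C.pair i j (C.cl i y) (C.cl j z)
  prod_chow : ∀ i j, i + j = D → ∀ y z x, C.actC j (C.prod i j y z) x = C.int i j y x • z
  prod_coh : ∀ i j, i + j = D → ∀ y z f,
    C.actH (2 * j) (C.prod i j y z) f = C.pair i j (C.cl i y) f • C.cl j z
  prod_coh_ne : ∀ i j n, i + j = D → n ≠ 2 * j → ∀ y z f, C.actH n (C.prod i j y z) f = 0
  prod_mot : ∀ i j, i + j = D → ∀ a b, a ≠ 2 * b → ∀ y z x, C.actM a b (C.prod i j y z) x = 0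

/-- The isomorphism `β` is compatible with the Frobenius, which acts on `H^n(X, ℚ_ℓ(c))` as
`q ^ (-c)` times the pull-back. -/
def IsCohIso {Ω : Type} [Field Ω] {V : Type} (T : Homology Ω V) (X : V) (q : ℕ) (C : CycData Ω)
    (i j : ℤ) (n : ℕ) (c : ℤ) (β : T.E X i j → C.H n) : Prop :=
  IsLin Ω β ∧ Function.Bijective β ∧ ∀ e, β (T.frob X i j e) = ((q : Ω) ^ c)⁻¹ • C.Fr n (β e)

/-- The groups of homology of `X` are given by these groups: `H_(2 D - n)(X, ℚ(D - c)) = H^n(X, ℚ(c))`. -/
structure IsHomologyOf {Ω : Type} [Field Ω] {V : Type} (T : Homology Ω V) (X : V) (q D : ℕ)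
    (C : CycData Ω) : Prop where
  motivic : ∀ n c : ℤ, ∃ f : T.M X (2 * D - n) (D - c) → C.Mot n c,
    IsAdd f ∧ Function.Injective f
  neg : ∀ n c : ℤ, n < 0 → ∀ e : T.E X (2 * D - n) (D - c), e = 0
  coh : ∀ (n : ℕ) (c : ℤ), ∃ β, IsCohIso T X q C (2 * D - n) (D - c) n c β
  chow : ∀ c : ℕ, ∃ (f : T.M X (2 * D - 2 * c) (D - c) → C.CH c) (β : _),
    IsAdd f ∧ Function.Bijective f ∧ IsCohIso T X q C (2 * D - 2 * c) (D - c) (2 * c) c β ∧
    ∀ x, β (T.reg X _ _ x) = C.cl c (f x)

/-! ## Products of abelian varieties and a curve -/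

/-- Abelian varieties `A k`, `k : κ`, and a smooth projective curve `B` with geometrically connected
components, or a finite set `B` of rational points, over the field with `Q` elements: the dual space `V k`
of `H^1(A k, ℚ_ℓ) ⊗ Ω` with the transpose `Φ k` of the pull-back by the Frobenius endomorphism, and the
cohomology groups `M j = H^j(B, ℚ_ℓ) ⊗ Ω` with the pull-back `G j` by the Frobenius endomorphism. -/
structure FactorData (Ω : Type) [Field Ω] (κ : Type) where
  V : κ → Type
  [vgrp : ∀ k, AddCommGroup (V k)]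
  [vmod : ∀ k, Module Ω (V k)]
  Φ : ∀ k, V k → V k
  M : ℕ → Type
  [mgrp : ∀ j, AddCommGroup (M j)]
  [mmod : ∀ j, Module Ω (M j)]
  G : ∀ j, M j → M j

attribute [instance] FactorData.vgrp FactorData.vmod FactorData.mgrp FactorData.mmod

/-- Let `P k` be the characteristic polynomial of `Φ k`. Each abelian variety `A k` is supersingular
(`δ k = 0`), or it has the slopes `1 / 2 ± δ k` with `(2 δ k) ^ 2 > 1 / 2`, for example `δ k = 1 / 2` for
ordinary abelian varieties, and satisfies the condition `RealFieldsOnePlace`, as all ordinary elliptic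
curves do; and the abelian varieties with different `δ k > 0` are `Incommensurable`. -/
def IsOnePlace (p : ℕ) [Fact p.Prime] (Q : ℕ) {Ω κ : Type} [Field Ω] (F : FactorData Ω κ) : Prop :=
  ∃ (P : κ → ℤ[X]) (δ : κ → ℝ), (∀ k, IsAnnihilated Ω (P k) (F.Φ k) ∧ 0 ≤ δ k ∧
    Pool.Agent.KS6_5.OC.HasSlopes p Q (δ k) (P k) ∧ (δ k = 0 ∨ 1 / 2 < (2 * δ k) ^ 2) ∧
    (0 < δ k → Pool.Agent.KS6_5.OC.RealFieldsOnePlace p Q (P k))) ∧
    ∀ k l, 0 < δ k → 0 < δ l → δ k ≠ δ l →
      Pool.Agent.KS6_5.OC.Incommensurable Q (P k) (P l)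

/-- The characteristic is odd and `A k` is the Jacobian variety of the smooth projective curve with the
affine equation `z ^ (p ^ e) - z = a x + b / x + c`, for some `e > 0` and `a`, `b`, `c` with `a b ≠ 0` in
the field with `Q` elements, depending on `k`. -/
def IsKloosterman (p Q : ℕ) {Ω κ : Type} [Field Ω] (F : FactorData Ω κ) : Prop :=
  p ≠ 2 ∧ ∃ (K : Type) (_ : Field K) (e : κ → ℕ) (a b c : κ → K), Nat.card K = Q ∧
    ∀ k, 0 < e k ∧ a k ≠ 0 ∧ b k ≠ 0 ∧ ∃ φ : F.V k →ₗ[Ω] F.V k, (∀ x, F.Φ k x = φ x) ∧
      Pool.Agent.KS6_5.KL.IsFirstCohomology p (e k) 1 (a k) (b k) (c k) φ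

/-- The abelian varieties are of one of the two kinds `IsOnePlace` and `IsKloosterman`. The other
properties are those of all abelian varieties and curves (Weil). -/
structure IsFactorData (p : ℕ) [Fact p.Prime] (Q : ℕ) {Ω κ : Type} [Field Ω]
    (F : FactorData Ω κ) : Prop where
  kind : IsOnePlace p Q F ∨ IsKloosterman p Q F
  finite : ∀ k, FiniteDimensional Ω (F.V k)
  semisimple : ∀ k, IsDiagonalizable Ω (F.Φ k)
  curve_finite : ∀ j, FiniteDimensional Ω (F.M j)
  curve_zero : ∀ x, F.G 0 x = x
  curve_one : IsDiagonalizable Ω (F.G 1) ∧ ∃ P, HasWeight Q 1 P ∧ IsAnnihilated Ω P (F.G 1)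
  curve_two : ∀ x, F.G 2 x = (Q : Ω) • x
  curve_top : ∀ j, 2 < j → ∀ x : F.M j, x = 0

/-- The multilinear map `ψ` on `∏ H_1(A k)` with values in `M = H^j(B)`, which corresponds to a
cohomology class of degree `2 c` on the product of the `A k` and `B`, is a product of divisor classes:
there are a set `S` with at most one element and a partition of the other factors in sets `T` with two
elements such that `ψ` is the product of bilinear forms `f T` and of a map `g` in the variable in `S` with
values in `M`, which are divisor classes over a finite extension, that is they are multiplied by `Q ^ s`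
by the `s`-th power of the Frobenius, for some `s > 0`. -/
def IsPairProduct {ι Ω M : Type} [Fintype ι] [DecidableEq ι] {V : ι → Type} [Field Ω]
    [∀ k, AddCommGroup (V k)] [∀ k, Module Ω (V k)] [AddCommGroup M] [Module Ω M]
    (Q c : ℕ) (Φ : ∀ k, V k → V k) (G : M → M) (ψ : (∀ k, V k) → M) : Prop :=
  ∃ S : Finset ι, S.card ≤ 1 ∧ ∃ (P : Finpartition (Finset.univ \ S))
    (f : ∀ T : Finset ι, (∀ k : T, V k) → Ω) (g : (∀ k : S, V k) → M),
    (∀ T ∈ P.parts, T.card = 2 ∧ IsMultilinear Ω (f T) ∧
      ∃ s : ℕ, 0 < s ∧ ∀ v, f T (fun k => (Φ k)^[s] (v k)) = (Q : Ω) ^ s * f T v) ∧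
    IsMultilinear Ω g ∧
    (∃ s : ℕ, 0 < s ∧ ∀ v, ((Q : Ω) ^ P.parts.card) ^ s • G^[s] (g fun k => (Φ k)^[s] (v k)) =
      ((Q : Ω) ^ c) ^ s • g v) ∧
    ∀ v, ψ v = (∏ T ∈ P.parts, f T (fun k => v k)) • g (fun k => v k)

/-- Over the extension of degree `m` of the base field the scheme `X` is a disjoint union, with components
`z : Z`, of products of the abelian varieties `A k` and of a component of the curve `B`, which are
described by `F`; and `comp z n i j τ` maps a cohomology class of degree `n` to its component in the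
group `H^1(A k_1) ⊗ ... ⊗ H^1(A k_i) ⊗ H^j(B)`, `k_a = τ a`, on the component `z`. -/
structure Splitting {Ω : Type} [Field Ω] (C : CycData Ω) where
  m : ℕ
  κ : Type
  F : FactorData Ω κ
  Z : Type
  comp : Z → ∀ (n i j : ℕ) (τ : Fin i → κ), C.H n → (∀ a, F.V (τ a)) → F.M j

/-- The base field has `p ^ e` elements, and the abelian varieties and the curve have the properties
`IsFactorData`. The components with `i + j = n` determine the classes of degree `n` (Künneth), the
Frobenius of the extension of degree `m` operates on the factors; and a class of degree `2 c` on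
which the Frobenius acts as multiplication by `p ^ (e c)` is a linear combination of classes of cycles
if its components are linear combinations of products of divisor classes. The latter is Tate's
theorem: Frobenius invariant classes of degree two on products of abelian varieties and curves are
linear combinations of classes of divisors. -/
structure IsSplitting (p e : ℕ) [Fact p.Prime] {Ω : Type} [Field Ω] {C : CycData Ω}
    (S : Splitting C) : Prop where
  pos : 0 < S.m
  factors : IsFactorData p (p ^ (e * S.m)) S.F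
  multilinear : ∀ z n i j τ, IsLinearMultilinear Ω (S.comp z n i j τ)
  kunneth : ∀ n h, (∀ z i j τ, i + j = n → ∀ v, S.comp z n i j τ h v = 0) → h = 0
  frob : ∀ z n i j τ h v, S.comp z n i j τ ((C.Fr n)^[S.m] h) v =
    S.F.G j (S.comp z n i j τ h fun a => S.F.Φ (τ a) (v a))
  divisors : ∀ c h, C.Fr (2 * c) h = ((p ^ e : ℕ) : Ω) ^ c • h →
    (∀ z i j τ, i + j = 2 * c → ∃ (r : ℕ) (ψ : Fin r → (∀ a, S.F.V (τ a)) → S.F.M j),
      (∀ l, IsPairProduct (Ω := Ω) (p ^ (e * S.m)) c (fun a => S.F.Φ (τ a)) (S.F.G j) (ψ l)) ∧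
      ∀ v, S.comp z (2 * c) i j τ h v = ∑ l, ψ l v) →
    h ∈ Submodule.span Ω (Set.range (C.cl c))

/-- `X` is a smooth projective scheme of dimension `D` over the field with `p ^ e` elements, and over a
finite extension it is a disjoint union of products of abelian varieties of one of the kinds `IsOnePlace`
and `IsKloosterman` and of an arbitrary smooth projective curve or a point. -/
def IsBase (p e : ℕ) [Fact p.Prime] {Ω : Type} [Field Ω] {V : Type} (H : Homology Ω V) (X : V) :
    Prop :=
  ∃ (D : ℕ) (C : CycData Ω), IsWeil (p ^ e) D C ∧ IsCorr (p ^ e) C ∧ IsProd D C ∧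
    (∃ S : Splitting C, IsSplitting p e S) ∧ IsHomologyOf H X (p ^ e) D C

/-- The class of schemes generated by those with the property `IsBase`, by direct summands of finite
sums of twists of motives and by localisation triples. -/
def InClass (p e : ℕ) [Fact p.Prime] {Ω : Type} [Field Ω] {V : Type} (H : Homology Ω V) (X : V) :
    Prop :=
  Generated H (IsBase p e H) X

end

end Pool.Agent.KS6_19.GF
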