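import Pool.Agent.KS6_19.GF.LimitDefs
import Pool.Graph.R_pool_sql_team_seeded_f72693b1.W492.MT.Defs

/-!
# Motives over a function field: definitions
-/

set_option autoImplicit false

open CategoryTheory Limits Triangulated Pretriangulated

namespace Pool.Agent.KS6_19.GF

open Pool.Agent.W492.MT Pool.Agent.W492.TS Pool.Agent.W495.FM

universe v u v' u' v'' u'' w

noncomputable section

variable {DM : Type u} [Category.{v} DM] [HasZeroObject DM] [HasShift DM ℤ] [Preadditive DM]
  [∀ n : ℤ, (shiftFunctor DM n).Additive] [Pretriangulated DM]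
  {L : Type w} {D : L → Type u'} [∀ ℓ, Category.{v'} (D ℓ)] [∀ ℓ, HasZeroObject (D ℓ)]
  [∀ ℓ, HasShift (D ℓ) ℤ] [∀ ℓ, Preadditive (D ℓ)]
  [∀ ℓ, ∀ n : ℤ, (shiftFunctor (D ℓ) n).Additive] [∀ ℓ, Pretriangulated (D ℓ)]
  (R : ∀ ℓ, DM ⥤ D ℓ) (s : ∀ ℓ, TStructure (D ℓ)) {W : Type} (obj : W → DM)

/-- `M` is a direct summand of one of the objects `obj x`: for `obj x = M(X)(i)[2 i]`, with `X` smooth
projective, these are Chow motives. -/
def IsChow (M : DM) : Prop := ∃ x, Nonempty (Retract M (obj x))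

/-- `M` is pure of weight `w`: it is a direct summand of the shift `(obj x)[w]` of one of the objects
`obj x`, and its realisations are concentrated in degree zero. -/
def IsPure (w : ℤ) (M : DM) : Prop :=
  InDeg R s 0 M ∧ ∃ x, Nonempty (Retract M ((obj x)⟦w⟧))

variable {Ω : Type} [Field Ω] {V : Type} (H : L → Homology Ω V) (P : L → V → Prop)
  {E : L → Type u''} [∀ ℓ, Category.{v''} (E ℓ)] [∀ ℓ, Preadditive (E ℓ)]
  [∀ ℓ, Linear Ω (E ℓ)] (F : ∀ ℓ, D ℓ ⥤ E ℓ)
  (fr : ∀ (ℓ : L) (X Y : D ℓ), ((F ℓ).obj X ⟶ (F ℓ).obj Y) → ((F ℓ).obj X ⟶ (F ℓ).obj Y))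

/-- Known properties of the category `DM` of motives over a field `K` which is finitely generated of
transcendence degree `d` over the finite field `k`, generated by the objects
`obj x = M(X)(i)[2 i]` for certain pairs `x = (X, i)` of smooth projective schemes over `K` and integers, and
of the `ℓ`-adic realisations `R ℓ : DM ⥤ D ℓ`, with the base change `F ℓ : D ℓ ⥤ E ℓ` to the compositum of `K`
with the algebraic closure of `k`. -/
structure IsGeometric (d : ℤ) : Prop where
  /-- the operation of the Frobenius of `k` -/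
  frob : ∀ ℓ, IsFrob Ω (F ℓ) (fr ℓ)
  /-- the groups of morphisms from `(obj x)[a]` to `(obj y)[b]` are direct limits of groups of the schemes
  over open subschemes of a model of `K`, by the isomorphisms of Poincaré and the continuity of motivic
  and `ℓ`-adic cohomology -/
  limit : ∀ (ℓ : L) (x y : W) (a b : ℤ), ∃ (i j : ℤ) (S : LimitData (H ℓ) i j
      ((obj x)⟦a⟧ ⟶ (obj y)⟦b⟧) ((F ℓ).obj ((R ℓ).obj ((obj x)⟦a⟧)) ⟶ (F ℓ).obj ((R ℓ).obj ((obj y)⟦b⟧)))),
    IsLimit (P ℓ) (fun f => (F ℓ).map ((R ℓ).map f)) (fr ℓ _ _) S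
  /-- the decomposition of Künneth, up to rational equivalence (Shermenev, Deninger and Murre, Kimura) -/
  kunneth : ∀ M, IsChow obj M → ∃ n, IsSum (fun N => ∃ m, IsChow obj N ∧ InDeg R s m N) n M
  /-- the Chow motives generate the triangulated category (Bondarko) -/
  gen : ∀ C : ObjectProperty DM, C.IsClosedUnderIsomorphisms → C.IsTriangulated →
    (∀ M, IsChow obj M → C M) → ∀ M, C M
  /-- the weights of the cohomology with coefficients in pure sheaves (Deligne) -/
  weights : ∀ (ℓ : L) (v w : ℤ) (M N : DM), IsPure R s obj v M → IsPure R s obj w N →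
    ∀ n : ℤ, ¬ (n ≤ v - w ∧ v - w ≤ 2 * n) →
      ∀ u : (F ℓ).obj ((R ℓ).obj M) ⟶ (F ℓ).obj ((R ℓ).obj (N⟦n⟧)), fr ℓ _ _ u = u → u = 0
  /-- pure sheaves are semisimple over the algebraic closure of `k` (Deligne) -/
  semisimple : ∀ (ℓ : L) (w : ℤ) (M N : DM), IsPure R s obj w M → IsPure R s obj w N →
    ∀ u : (F ℓ).obj ((R ℓ).obj M) ⟶ (F ℓ).obj ((R ℓ).obj N), ∃ u', u ≫ u' ≫ u = u
  /-- the cohomological dimension of affine schemes over the algebraic closure of `k` (Artin) -/
  dimension : ∀ (ℓ : L) (v w : ℤ) (M N : DM), IsPure R s obj v M → IsPure R s obj w N →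
    ∀ n : ℤ, d < n → ∀ u : (F ℓ).obj ((R ℓ).obj M) ⟶ (F ℓ).obj ((R ℓ).obj (N⟦n⟧)), u = 0

/-- The t-structure `t` is bounded and non-degenerate, and it is compatible with the tensor product; each
realisation is conservative and t-exact, and detects the t-structure; there are no extensions
of degree `> d` between objects of the heart; there are extensions of degree `n` of a pure object of weight
`v` by a pure object of weight `w` only for `n ≤ v - w ≤ 2 n`; the category of pure objects is semisimple;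
and every object of the heart has a finite filtration, with pure quotients of increasing weights. -/
structure IsMotivic [MonoidalCategory DM] (d : ℤ) (t : TStructure DM) : Prop where
  bounded : Pool.Agent.W492.MT.Bounded t
  nonDegenerate : Pool.Agent.W492.MT.NonDegenerate t
  tensorExact : Pool.Agent.W492.MT.TensorExact t
  conservative : ∀ ℓ, (R ℓ).ReflectsIsomorphisms
  exact : ∀ (ℓ : L) (n : ℤ) (M : DM), (t.le n M ↔ (s ℓ).le n ((R ℓ).obj M)) ∧
    (t.ge n M ↔ (s ℓ).ge n ((R ℓ).obj M))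
  dimension : ∀ M N : DM, t.le 0 M → t.ge 0 M → t.le 0 N → t.ge 0 N → ∀ n : ℤ, d < n →
    ∀ f : M ⟶ N⟦n⟧, f = 0
  weights : ∀ (v w : ℤ) (M N : DM), IsPure R s obj v M → IsPure R s obj w N →
    ∀ n : ℤ, ¬ (n ≤ v - w ∧ v - w ≤ 2 * n) → ∀ f : M ⟶ N⟦n⟧, f = 0
  semisimple : ∀ (v w : ℤ) (M N : DM), IsPure R s obj v M → IsPure R s obj w N →
    ∀ f : M ⟶ N, ∃ h : N ⟶ M, f ≫ h ≫ f = f
  filtration : ∀ M, t.le 0 M → t.ge 0 M → ∃ l : List ℤ, l.Pairwise (· ≤ ·) ∧
    Filt (fun w => IsPure R s obj w) l M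

end

end Pool.Agent.KS6_19.GF
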