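import Pool.Agent.KS6_19.GF.Compare

/-!
# Comparison from direct limits
-/

set_option autoImplicit false
set_option linter.unusedSectionVars false

open CategoryTheory Limits

namespace Pool.Agent.KS6_19.GF

open Pool.Agent.W495.FM

universe v u v' u' v'' u''

noncomputable section

variable {Ω : Type} [Field Ω] [CharZero Ω] {V : Type} {H : Homology Ω V} {T : Type u}
  [Category.{v} T] [Preadditive T] [Linear ℚ T] {D : Type u'} [Category.{v'} D]
  [Preadditive D] {E : Type u''} [Category.{v''} E] [Preadditive E] [Linear Ω E]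
  {R : T ⥤ D} {F : D ⥤ E} {fr : ∀ X Y : D, (F.obj X ⟶ F.obj Y) → (F.obj X ⟶ F.obj Y)}

theorem IsFrob.comp' (hfr : IsFrob Ω F fr) (R : T ⥤ D) :
    IsFrob Ω (R ⋙ F) (fun M N => fr (R.obj M) (R.obj N)) where
  lin _ _ := hfr.lin _ _
  comp _ _ _ u v := hfr.comp _ _ _ u v
  map _ _ f := hfr.map _ _ (R.map f)

theorem exists_bound {I : Type} [Preorder I] (hne : Nonempty I)
    (hdir : ∀ a b : I, ∃ c, a ≤ c ∧ b ≤ c) {r : ℕ} (a : Fin r → I) : ∃ c, ∀ k, a k ≤ c := by
  induction r with
  | zero => exact ⟨Classical.choice hne, fun k => k.elim0⟩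
  | succ r ih =>
    obtain ⟨c, hc⟩ := ih fun k => a k.succ
    obtain ⟨d, h1, h2⟩ := hdir (a 0) c
    refine ⟨d, fun k => ?_⟩
    refine Fin.cases h1 (fun k => (hc k).trans h2) k

theorem compares_of_limit (hH : IsHomology H) (hfr : IsFrob Ω F fr) {P : V → Prop}
    (hP : ∀ X, P X → TB H X) {i j : ℤ} {M N : T}
    (S : LimitData H i j (M ⟶ N) (F.obj (R.obj M) ⟶ F.obj (R.obj N)))
    (hS : IsLimit P (fun f => F.map (R.map f)) (fr _ _) S) :
    Compares Ω (R ⋙ F) (fun M N => fr (R.obj M) (R.obj N)) M N := by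
  have hdir := hS.directed
  have hne := hS.nonempty
  let Z := S.Z
  let res := S.res
  let f : ∀ a, H.M (Z a) i j →+ (M ⟶ N) := fun a => AddMonoidHom.mk' (S.f a) (hS.add a)
  let g : ∀ a, H.E (Z a) i j →ₗ[Ω] (F.obj (R.obj M) ⟶ F.obj (R.obj N)) := fun a =>
    (hS.lin a).choose
  have hga : ∀ a x, g a x = S.g a x := fun a x => ((hS.lin a).choose_spec x).symm
  have hg : ∀ a b h x, g b ((res a b h).g x) = g a x := fun a b h x => by
    rw [hga, hga]
    exact hS.res_g a b h x
  have hgs : ∀ y, ∃ a x, g a x = y := fun y => by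
    obtain ⟨a, x, hx⟩ := hS.surj_g y
    exact ⟨a, x, (hga a x).trans hx⟩
  have hg0 : ∀ a x, g a x = 0 → ∃ b h, (res a b h).g x = 0 := fun a x hx =>
    hS.inj_g a x ((hga a x).symm.trans hx)
  have hgf : ∀ a x, g a (H.frob _ _ _ x) = fr _ _ (g a x) := fun a x => by
    rw [hga, hga]
    exact hS.frob a x
  have hgr : ∀ a x, g a (H.reg _ _ _ x) = F.map (R.map (f a x)) := fun a x =>
    (hga a _).trans (hS.reg a x)
  have hfs : ∀ y, ∃ a x, f a x = y := hS.surj_f
  have hfr' := hfr.comp' R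
  have hlin : ∀ a b h, IsLin Ω (res a b h).g := fun a b h => (res a b h).lin
  have hTB : ∀ a, TB H (Z a) := fun a => hP _ (hS.mem a)
  have hf : ∀ a b h x, f b ((res a b h).f x) = f a x := hS.res_f
  -- linear versions
  have hres : ∀ a b h, ∃ φ : H.E (Z a) i j →ₗ[Ω] H.E (Z b) i j, ∀ x, (res a b h).g x = φ x :=
    fun a b h => hlin a b h
  have hfrob : ∀ a, ∃ φ : H.E (Z a) i j →ₗ[Ω] H.E (Z a) i j, ∀ x, H.frob _ _ _ x = φ x :=
    fun a => hH.lin (Z a) i j
  constructor
  · intro r x hx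
    choose a y hy using fun k => hfs (x k)
    obtain ⟨c, hc⟩ := exists_bound hne hdir a
    let z : Fin r → H.M (Z c) i j := fun k => (res (a k) c (hc k)).f (y k)
    have hz : ∀ k, f c (z k) = x k := fun k => by rw [hf, hy]
    rw [Fintype.linearIndependent_iff]
    intro t ht
    have h1 : g c (∑ k, t k • H.reg _ _ _ (z k)) = 0 := by
      rw [map_sum, ← ht]
      refine Finset.sum_congr rfl fun k _ => ?_
      rw [map_smul, hgr, hz]
      rfl
    obtain ⟨b, hcb, h2⟩ := hg0 c _ h1
    have h3 : ∑ k, t k • H.reg _ _ _ ((res c b hcb).f (z k)) = 0 := by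
      obtain ⟨φ, hφ⟩ := hres c b hcb
      rw [hφ, map_sum] at h2
      rw [← h2]
      refine Finset.sum_congr rfl fun k _ => ?_
      rw [map_smul, ← hφ, (res c b hcb).reg]
    have h4 : LinearIndependent ℚ fun k => (res c b hcb).f (z k) := by
      have h5 : (fun k => f b ((res c b hcb).f (z k))) = x := by
        funext k
        rw [hf, hz]
      rw [← h5] at hx
      exact LinearIndependent.of_comp ((f b).toRatLinearMap) hx
    have h5 := (hTB b i j).2.1 r _ h4
    rw [Fintype.linearIndependent_iff] at h5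
    exact h5 t h3
  · intro u hu
    obtain ⟨a, x, rfl⟩ := hgs u
    obtain ⟨φ, hφ⟩ := hfrob a
    have h1 : g a (H.frob _ _ _ x - x) = 0 := by
      rw [map_sub, hgf, sub_eq_zero]
      exact hu
    obtain ⟨b, hab, h2⟩ := hg0 a _ h1
    have h3 : H.frob _ _ _ ((res a b hab).g x) = (res a b hab).g x := by
      obtain ⟨ψ, hψ⟩ := hres a b hab
      rw [(res a b hab).frob]
      rw [hψ, map_sub, sub_eq_zero] at h2
      rw [hψ, hψ, h2]
    have h4 := ((hTB b i j).1 _).1 h3
    have h5 : ∀ v ∈ Submodule.span Ω (Set.range (H.reg (Z b) i j)),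
        g b v ∈ Submodule.span Ω (Set.range fun f : M ⟶ N => (R ⋙ F).map f) := by
      intro v hv
      induction hv using Submodule.span_induction with
      | mem v hv =>
        obtain ⟨y, rfl⟩ := hv
        exact Submodule.subset_span ⟨f b y, (hgr b y).symm⟩
      | zero => rw [map_zero]; exact Submodule.zero_mem _
      | add a b _ _ ha hb => rw [map_add]; exact Submodule.add_mem _ ha hb
      | smul c a _ ha => rw [map_smul]; exact Submodule.smul_mem _ _ ha
    rw [← hg a b hab]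
    exact h5 _ h4
  · intro u hu
    obtain ⟨a, x, rfl⟩ := hgs u
    obtain ⟨φ, hφ⟩ := hfrob a
    have hu' : fr _ _ (fr _ _ (g a x) - g a x) = fr _ _ (g a x) - g a x := hu
    have h1 : g a (H.frob _ _ _ (H.frob _ _ _ x - x) - (H.frob _ _ _ x - x)) = 0 := by
      rw [map_sub, hgf, map_sub, hgf, hu', sub_self]
    obtain ⟨b, hab, h2⟩ := hg0 a _ h1
    obtain ⟨ψ, hψ⟩ := hres a b hab
    have h3 : H.frob _ _ _ (H.frob _ _ _ ((res a b hab).g x) - (res a b hab).g x) =
        H.frob _ _ _ ((res a b hab).g x) - (res a b hab).g x := by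
      have h4 : H.frob _ _ _ ((res a b hab).g x) - (res a b hab).g x =
          (res a b hab).g (H.frob _ _ _ x - x) := by
        rw [(res a b hab).frob, hψ, hψ, hψ, map_sub]
      rw [h4, (res a b hab).frob]
      rw [hψ, map_sub, sub_eq_zero, ← hψ, ← hψ] at h2
      exact h2
    have h4 := (hTB b i j).2.2 _ h3
    have h5 : fr _ _ (g a x) = g a x := by
      rw [← hg a b hab x, ← hgf, h4]
    exact h5
  · intro u
    obtain ⟨a, x, rfl⟩ := hgs u
    have := hH.finite (Z a) i j
    refine ⟨LinearMap.range (g a), inferInstance, ⟨x, rfl⟩, ?_⟩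
    rintro _ ⟨y, rfl⟩
    exact ⟨H.frob _ _ _ y, hgf a y⟩

end

end Pool.Agent.KS6_19.GF
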