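import Pool.Graph.R_pool_sql_team_seeded_f72693b1.W492.PC.Suff
import Pool.Graph.R_seed8.W495.FM.HomDefs

/-!
# Morphisms of motives over a function field: definitions
-/

set_option autoImplicit false

open CategoryTheory Limits

namespace Pool.Agent.KS6_19.GF

open Pool.Agent.W495.FM

universe v u v' u'

noncomputable section

/-- `f` is additive. -/
def IsAddHom {A : Type v} {B : Type v'} [AddCommGroup A] [AddCommGroup B] (f : A → B) : Prop :=
  ∀ x y, f (x + y) = f x + f y

/-- `f` is linear. -/
def IsLinHom (Ω : Type) [Field Ω] {A : Type v} {B : Type v'} [AddCommGroup A] [Module Ω A]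
    [AddCommGroup B] [Module Ω B] (f : A → B) : Prop :=
  ∃ φ : A →ₗ[Ω] B, ∀ x, f x = φ x

/-- The operation `fr` of the Frobenius on the groups of morphisms between the objects `S.obj M`: it is
linear, compatible with the composition, and it fixes the morphisms `S.map f`. -/
structure IsFrob (Ω : Type) [Field Ω] {D : Type u} [Category.{v} D] {E : Type u'}
    [Category.{v'} E] [Preadditive E] [Linear Ω E] (S : D ⥤ E)
    (fr : ∀ M N : D, (S.obj M ⟶ S.obj N) → (S.obj M ⟶ S.obj N)) : Prop where
  lin : ∀ M N, IsLinHom Ω (fr M N)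
  comp : ∀ (M N P : D) (u : S.obj M ⟶ S.obj N) (v : S.obj N ⟶ S.obj P),
    fr M P (u ≫ v) = fr M N u ≫ fr N P v
  map : ∀ (M N : D) (f : M ⟶ N), fr M N (S.map f) = S.map f

/-- A directed system of schemes `Z a` with restriction homomorphisms of their homology groups in the
degree `i` with the twist `j`, and homomorphisms `f a` from the motivic homology groups of `Z a` to `A`
and `g a` from their `ℓ`-adic homology groups to `B`. -/
structure LimitData {Ω : Type} [Field Ω] {V : Type} (H : Homology Ω V) (i j : ℤ)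
    (A : Type v) (B : Type v') where
  I : Type
  [ord : Preorder I]
  Z : I → V
  res : ∀ a b : I, a ≤ b → Hom H (Z a) i j (Z b) i j
  f : ∀ a, H.M (Z a) i j → A
  g : ∀ a, H.E (Z a) i j → B

attribute [instance] LimitData.ord

/-- The groups `A` and `B` are the direct limits of the motivic and of the `ℓ`-adic homology groups of the
schemes `Z a`, which have the property `P`, compatibly with the regulators and the Frobenius. -/
structure IsLimit {Ω : Type} [Field Ω] {V : Type} {H : Homology Ω V} (P : V → Prop) {i j : ℤ}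
    {A : Type v} {B : Type v'} [AddCommGroup A] [AddCommGroup B] [Module Ω B] (reg : A → B)
    (fr : B → B) (S : LimitData H i j A B) : Prop where
  nonempty : Nonempty S.I
  directed : ∀ a b : S.I, ∃ c, a ≤ c ∧ b ≤ c
  mem : ∀ a, P (S.Z a)
  add : ∀ a, IsAddHom (S.f a)
  lin : ∀ a, IsLinHom Ω (S.g a)
  res_f : ∀ a b h x, S.f b ((S.res a b h).f x) = S.f a x
  res_g : ∀ a b h x, S.g b ((S.res a b h).g x) = S.g a x
  surj_f : ∀ y, ∃ a x, S.f a x = y
  inj_f : ∀ a x, S.f a x = 0 → ∃ b h, (S.res a b h).f x = 0
  surj_g : ∀ y, ∃ a x, S.g a x = y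
  inj_g : ∀ a x, S.g a x = 0 → ∃ b h, (S.res a b h).g x = 0
  frob : ∀ a x, S.g a (H.frob (S.Z a) i j x) = fr (S.g a x)
  reg : ∀ a x, S.g a (H.reg (S.Z a) i j x) = reg (S.f a x)

end

end Pool.Agent.KS6_19.GF
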