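import Pool.Agent.KS6_19.GF.Limit
import Pool.Agent.KS6_19.GF.GeoDefs
import Pool.Graph.R_pool_sql_team_seeded_f72693b1.W492.TS.Final

/-!
# Pure objects over a function field
-/

set_option autoImplicit false
set_option linter.unusedSectionVars false
set_option linter.unusedVariables false

open CategoryTheory Limits Triangulated Pretriangulated ZeroObject

namespace Pool.Agent.KS6_19.GF

open Pool.Agent.W492.MT (InDeg IsSum)
open Pool.Agent.W492.TS Pool.Agent.W495.FM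
open Pool.Agent.W492.PC (PureDeg RetractClosed Semisimple NegVanishing)

universe v u v' u' v'' u'' w

noncomputable section

variable {DM : Type u} [Category.{v} DM] [HasZeroObject DM] [HasShift DM ℤ] [Preadditive DM]
  [Linear ℚ DM] [∀ n : ℤ, (shiftFunctor DM n).Additive] [Pretriangulated DM] [IsTriangulated DM]
  {L : Type w} {D : L → Type u'} [∀ ℓ, Category.{v'} (D ℓ)] [∀ ℓ, HasZeroObject (D ℓ)]
  [∀ ℓ, HasShift (D ℓ) ℤ] [∀ ℓ, Preadditive (D ℓ)]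
  [∀ ℓ, ∀ n : ℤ, (shiftFunctor (D ℓ) n).Additive] [∀ ℓ, Pretriangulated (D ℓ)]
  [∀ ℓ, IsTriangulated (D ℓ)]
  {R : ∀ ℓ, DM ⥤ D ℓ} [∀ ℓ, (R ℓ).CommShift ℤ] [∀ ℓ, (R ℓ).IsTriangulated]
  {s : ∀ ℓ, TStructure (D ℓ)} {W : Type} {obj : W → DM}
  {Ω : Type} [Field Ω] [CharZero Ω] {V : Type} {H : L → Homology Ω V} {P : L → V → Prop}
  {E : L → Type u''} [∀ ℓ, Category.{v''} (E ℓ)] [∀ ℓ, Preadditive (E ℓ)]
  [∀ ℓ, Linear Ω (E ℓ)] {F : ∀ ℓ, D ℓ ⥤ E ℓ} [∀ ℓ, (F ℓ).Additive]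
  {fr : ∀ (ℓ : L) (X Y : D ℓ), ((F ℓ).obj X ⟶ (F ℓ).obj Y) → ((F ℓ).obj X ⟶ (F ℓ).obj Y)}
  {d : ℤ}

/-- the pure objects -/
def 𝒲 (R : ∀ ℓ, DM ⥤ D ℓ) (s : ∀ ℓ, TStructure (D ℓ)) (obj : W → DM) (w : ℤ) :
    ObjectProperty DM := fun M => IsPure R s obj w M

theorem pure_rdeg {w : ℤ} {M : DM} (h : 𝒲 R s obj w M) : RDeg R s 0 M :=
  ⟨fun i => h.1.1 i, fun i => h.1.2 i⟩

theorem pure_retractClosed : RetractClosed (𝒲 R s obj) := by
  rintro w X Y ⟨h1, x, ⟨r⟩⟩ ⟨r'⟩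
  have h2 : RDeg R s 0 Y := ⟨fun i => h1.1 i, fun i => h1.2 i⟩
  have h3 : RDeg R s 0 X := RDeg.retract r' h2
  exact ⟨⟨fun i => h3.1 i, fun i => h3.2 i⟩, x, ⟨r'.trans r⟩⟩

/-- the comparison for all pure objects -/
theorem compares_pure (hG : IsGeometric R s obj H P F fr d) (hH : ∀ ℓ, IsHomology (H ℓ))
    (hP : ∀ ℓ X, P ℓ X → TB (H ℓ) X) (ℓ : L) {v w : ℤ} {M N : DM} (hM : 𝒲 R s obj v M)
    (hN : 𝒲 R s obj w N) (n : ℤ) :
    Compares Ω (R ℓ ⋙ F ℓ) (fun M N => fr ℓ ((R ℓ).obj M) ((R ℓ).obj N)) M (N⟦n⟧) := by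
  obtain ⟨-, x, ⟨r⟩⟩ := hM
  obtain ⟨-, y, ⟨r'⟩⟩ := hN
  obtain ⟨i, j, S, h⟩ := hG.limit ℓ x y v (w + n)
  have h1 := compares_of_limit (hH ℓ) (hG.frob ℓ) (hP ℓ) S h
  refine h1.retract ((hG.frob ℓ).comp' (R ℓ)) r ?_
  exact (r'.map (shiftFunctor DM n)).trans
    (Retract.ofIso ((shiftFunctorAdd DM w n).app (obj y)).symm)

theorem compares_pure' (hG : IsGeometric R s obj H P F fr d) (hH : ∀ ℓ, IsHomology (H ℓ))
    (hP : ∀ ℓ X, P ℓ X → TB (H ℓ) X) (ℓ : L) {v w : ℤ} {M N : DM} (hM : 𝒲 R s obj v M)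
    (hN : 𝒲 R s obj w N) :
    Compares Ω (R ℓ ⋙ F ℓ) (fun M N => fr ℓ ((R ℓ).obj M) ((R ℓ).obj N)) M N :=
  (compares_pure hG hH hP ℓ hM hN 0).retract ((hG.frob ℓ).comp' (R ℓ)) (Retract.refl M)
    (Retract.ofIso ((shiftFunctorZero DM ℤ).app N).symm)

/-- **Vanishing** of morphisms between pure objects. -/
theorem hom_zero [Nonempty L] (hG : IsGeometric R s obj H P F fr d)
    (hH : ∀ ℓ, IsHomology (H ℓ)) (hP : ∀ ℓ X, P ℓ X → TB (H ℓ) X) {v w : ℤ} {M N : DM}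
    (hM : 𝒲 R s obj v M) (hN : 𝒲 R s obj w N) (n : ℤ)
    (hn : d < n ∨ ¬ (n ≤ v - w ∧ v - w ≤ 2 * n)) (f : M ⟶ N⟦n⟧) : f = 0 := by
  let ℓ : L := Classical.arbitrary L
  have hc := compares_pure hG hH hP ℓ hM hN n
  refine hc.hom_zero (fun u hu => ?_) ((hG.frob ℓ).comp' (R ℓ)) f
  rcases hn with h | h
  · exact hG.dimension ℓ v w M N hM hN n h u
  · exact hG.weights ℓ v w M N hM hN n h u hu

theorem negVanishing [Nonempty L] (hG : IsGeometric R s obj H P F fr d)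
    (hH : ∀ ℓ, IsHomology (H ℓ)) (hP : ∀ ℓ X, P ℓ X → TB (H ℓ) X) :
    NegVanishing (𝒲 R s obj) := by
  intro v w X Y hX hY m hm f
  exact hom_zero hG hH hP hX hY m (Or.inr (by omega)) f

theorem semisimple [Nonempty L] (hG : IsGeometric R s obj H P F fr d)
    (hH : ∀ ℓ, IsHomology (H ℓ)) (hP : ∀ ℓ X, P ℓ X → TB (H ℓ) X) :
    Semisimple (𝒲 R s obj) := by
  intro v w X Y hX hY f
  let ℓ : L := Classical.arbitrary L
  by_cases hvw : v = w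
  · subst hvw
    exact regular ((hG.frob ℓ).comp' (R ℓ)) (compares_pure' hG hH hP ℓ hX hY)
      (compares_pure' hG hH hP ℓ hY hX) f (hG.semisimple ℓ v X Y hX hY _)
  · refine ⟨0, ?_⟩
    have h1 := hom_zero hG hH hP hX hY 0 (Or.inr (by omega))
      (f ≫ (shiftFunctorZero DM ℤ).inv.app Y)
    have h2 : f = 0 := by
      rw [← cancel_mono ((shiftFunctorZero DM ℤ).inv.app Y), h1, zero_comp]
    rw [h2, zero_comp]

theorem isZero_of_one (hG : IsGeometric R s obj H P F fr d) (hH : ∀ ℓ, IsHomology (H ℓ))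
    (hP : ∀ ℓ X, P ℓ X → TB (H ℓ) X) (ℓ : L) {w : ℤ} {X : DM} (hX : 𝒲 R s obj w X)
    (h : IsZero ((R ℓ).obj X)) : IsZero X := by
  rw [IsZero.iff_id_eq_zero]
  apply (compares_pure' hG hH hP ℓ hX hX).faithful
  rw [CategoryTheory.Functor.map_id]
  have h1 : IsZero ((R ℓ ⋙ F ℓ).obj X) := (F ℓ).map_isZero h
  exact h1.eq_of_src _ _

theorem generated (hG : IsGeometric R s obj H P F fr d) :
    Generated fun X : DM => ∃ w, 𝒲 R s obj w X := by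
  intro C hC hT hle M
  refine hG.gen C hC hT ?_ M
  intro A hA
  obtain ⟨n, hn⟩ := hG.kunneth A hA
  have hstep : ∀ (n : ℕ) (A : DM),
      IsSum (fun N => ∃ m, IsChow obj N ∧ InDeg R s m N) n A → C A := by
    intro n
    induction n with
    | zero =>
      intro A hA
      exact C.prop_of_isZero hA
    | succ n ih =>
      rintro A ⟨B, B', ⟨m, ⟨x, ⟨r⟩⟩, hdeg⟩, hB', ⟨e⟩⟩
      have hdeg' : RDeg R s m B := ⟨fun i => hdeg.1 i, fun i => hdeg.2 i⟩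
      have h0 : RDeg R s 0 (B⟦m⟧) := hdeg'.shift (by ring)
      have h1 : C (B⟦m⟧) := hle _ ⟨m, ⟨fun i => h0.1 i, fun i => h0.2 i⟩, x,
        ⟨r.map (shiftFunctor DM m)⟩⟩
      have h2 : C (B⟦m⟧⟦-m⟧) := C.le_shift (-m) _ h1
      have h3 : C B := C.prop_of_iso ((shiftEquiv DM m).unitIso.symm.app B) h2
      have h4 : C B' := ih B' hB'
      refine C.prop_of_iso e.symm ?_
      exact C.ext_of_isTriangulatedClosed₂ _ (binaryBiproductTriangle_distinguished B B') h3 h4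
  exact hstep n A hn

end

end Pool.Agent.KS6_19.GF
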