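import Pool.Agent.KS6_19.GF.CycDefs
import Pool.Agent.KS6_5.OC.Defs
import Pool.Agent.KS6_5.KL.Defs

/-!
# Products of abelian varieties and a curve: definitions
-/

set_option autoImplicit false

namespace Pool.Agent.KS6_19.GF.Bun

open Polynomial Pool.Agent.KS6_5 Pool.Agent.KS6_5.OC

noncomputable section

/-- Abelian varieties `A k`, `k : κ`, and a smooth projective curve `B` with geometrically connected
components, or a finite set `B` of rational points, over the field with `Q` elements: the dual space `V k`
of `H^1(A k, ℚ_ℓ) ⊗ Ω` with the transpose `Φ k` of the pull-back by the Frobenius endomorphism, the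
cohomology groups `M j = H^j(B, ℚ_ℓ) ⊗ Ω` with the pull-back `G j` by the Frobenius endomorphism, and the
characteristic polynomial `R` of `G 1`. -/
structure FactorData (Ω : Type) [Field Ω] (κ : Type) where
  V : κ → Type
  [vgrp : ∀ k, AddCommGroup (V k)]
  [vmod : ∀ k, Module Ω (V k)]
  Φ : ∀ k, V k →ₗ[Ω] V k
  M : ℕ → Type
  [mgrp : ∀ j, AddCommGroup (M j)]
  [mmod : ∀ j, Module Ω (M j)]
  G : ∀ j, M j →ₗ[Ω] M j
  R : ℤ[X]

attribute [instance] FactorData.vgrp FactorData.vmod FactorData.mgrp FactorData.mmod

/-- Let `P k` be the characteristic polynomial of `Φ k`. Each abelian variety `A k` is supersingular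
(`δ k = 0`), or it has the slopes `1 / 2 ± δ k` with `(2 δ k) ^ 2 > 1 / 2`, for example `δ k = 1 / 2` for
ordinary abelian varieties, and satisfies the condition `RealFieldsOnePlace`, as all ordinary elliptic
curves do; and the abelian varieties with different `δ k > 0` are `Incommensurable`. -/
def IsOnePlace (p : ℕ) [Fact p.Prime] (Q : ℕ) {Ω κ : Type} [Field Ω] (F : FactorData Ω κ) : Prop :=
  ∃ (P : κ → ℤ[X]) (δ : κ → ℝ), (∀ k, aeval (F.Φ k) (P k) = 0 ∧ 0 ≤ δ k ∧
    HasSlopes p Q (δ k) (P k) ∧ (δ k = 0 ∨ 1 / 2 < (2 * δ k) ^ 2) ∧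
    (0 < δ k → RealFieldsOnePlace p Q (P k))) ∧
    ∀ k l, 0 < δ k → 0 < δ l → δ k ≠ δ l → Incommensurable Q (P k) (P l)

/-- The characteristic is odd and `A k` is the Jacobian variety of the smooth projective curve with the
affine equation `z ^ (p ^ e) - z = a x + b / x + c`, for some `e > 0` and `a`, `b`, `c` with `a b ≠ 0` in
the field with `Q` elements, depending on `k`. -/
def IsKloosterman (p Q : ℕ) {Ω κ : Type} [Field Ω] (F : FactorData Ω κ) : Prop :=
  p ≠ 2 ∧ ∃ (K : Type) (_ : Field K) (e : κ → ℕ) (a b c : κ → K), Nat.card K = Q ∧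
    ∀ k, 0 < e k ∧ a k ≠ 0 ∧ b k ≠ 0 ∧
      KL.IsFirstCohomology p (e k) 1 (a k) (b k) (c k) (F.Φ k)

/-- The abelian varieties are of one of the two kinds `IsOnePlace` and `IsKloosterman`. The other
properties are those of all abelian varieties and curves (Weil). -/
structure IsFactorData (p : ℕ) [Fact p.Prime] (Q : ℕ) {Ω κ : Type} [Field Ω]
    (F : FactorData Ω κ) : Prop where
  kind : IsOnePlace p Q F ∨ IsKloosterman p Q F
  finite : ∀ k, FiniteDimensional Ω (F.V k)
  semisimple : ∀ k, Submodule.span Ω {x : F.V k | ∃ μ : Ω, F.Φ k x = μ • x} = ⊤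
  curve_finite : ∀ j, FiniteDimensional Ω (F.M j)
  curve_zero : ∀ x, F.G 0 x = x
  curve_two : ∀ x, F.G 2 x = (Q : Ω) • x
  curve_top : ∀ j, 2 < j → ∀ x : F.M j, x = 0
  curve_semisimple : Submodule.span Ω {x : F.M 1 | ∃ μ : Ω, F.G 1 x = μ • x} = ⊤
  curve_monic : F.R.Monic
  curve_char : aeval (F.G 1) F.R = 0
  curve_weil : ∀ z : AlgebraicClosure ℚ, aeval z F.R = 0 → ∀ φ : AlgebraicClosure ℚ →+* ℂ,
    ‖φ z‖ ^ 2 = Q

/-- The multilinear map `ψ` on `∏ H_1(A k)` with values in `H^j(B)`, which corresponds to a cohomology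
class of degree `2 c` on the product of the `A k` and `B`, is a product of divisor classes: there are a
set `S` with at most one element and a partition of the other factors in sets `T` with two elements such
that `ψ` is the product of bilinear forms `f T` and of a map `g` in the variable in `S` with values in
`H^j(B)`, which are divisor classes over a finite extension, that is they are multiplied by `Q ^ s` by
the `s`-th power of the Frobenius, for some `s > 0`. -/
def IsPairProduct {ι Ω M : Type} [Fintype ι] [DecidableEq ι] {V : ι → Type} [Field Ω]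
    [∀ k, AddCommGroup (V k)] [∀ k, Module Ω (V k)] [AddCommGroup M] [Module Ω M]
    (Q c : ℕ) (Φ : ∀ k, V k →ₗ[Ω] V k) (G : M →ₗ[Ω] M) (ψ : MultilinearMap Ω V M) : Prop :=
  ∃ S : Finset ι, S.card ≤ 1 ∧ ∃ (P : Finpartition (Finset.univ \ S))
    (f : ∀ T : Finset ι, MultilinearMap Ω (fun k : T => V k) Ω)
    (g : MultilinearMap Ω (fun k : S => V k) M),
    (∀ T ∈ P.parts, T.card = 2 ∧
      ∃ s : ℕ, 0 < s ∧ ∀ v, f T (fun k => (Φ k ^ s) (v k)) = (Q : Ω) ^ s * f T v) ∧
    (∃ s : ℕ, 0 < s ∧ ∀ v, ((Q : Ω) ^ P.parts.card) ^ s • (G ^ s) (g (fun k => (Φ k ^ s) (v k))) =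
      ((Q : Ω) ^ c) ^ s • g v) ∧
    ∀ v, ψ v = (∏ T ∈ P.parts, f T (fun k => v k)) • g (fun k => v k)

/-- Over the extension of degree `m` of the base field the scheme `X` is a disjoint union, with components
`z : Z`, of products of the abelian varieties `A k` and of a component of the curve `B`, which are
described by `F`; and `comp z n i j τ` maps a cohomology class of degree `n` to its component in the
group `H^1(A k_1) ⊗ ... ⊗ H^1(A k_i) ⊗ H^j(B)`, `k_a = τ a`, on the component `z`. -/
structure Splitting {Ω : Type} [Field Ω] (C : CycData Ω) where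
  m : ℕ
  κ : Type
  F : FactorData Ω κ
  Z : Type
  comp : ∀ (_ : Z) (n i j : ℕ) (τ : Fin i → κ),
    C.H n →ₗ[Ω] MultilinearMap Ω (fun a => F.V (τ a)) (F.M j)

/-- The linear combinations of products of divisor classes. -/
def Splitting.products {Ω : Type} [Field Ω] {C : CycData Ω} (S : Splitting C) (Q c i j : ℕ)
    (τ : Fin i → S.κ) : Submodule Ω (MultilinearMap Ω (fun a => S.F.V (τ a)) (S.F.M j)) :=
  Submodule.span Ω {ψ | IsPairProduct Q c (fun a => S.F.Φ (τ a)) (S.F.G j) ψ}

/-- The base field has `p ^ e` elements, and the abelian varieties and the curve have the properties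
`IsFactorData`. The components with `i + j = n` determine the classes of degree `n` (Künneth), the
Frobenius of the extension of degree `m` operates on the factors; and a class of degree `2 c` on
which the Frobenius acts as multiplication by `p ^ (e c)` is a linear combination of classes of cycles
if its components are linear combinations of products of divisor classes. The latter is Tate's
theorem: Frobenius invariant classes of degree two on products of abelian varieties and curves are
linear combinations of classes of divisors. -/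
structure IsSplitting (p e : ℕ) [Fact p.Prime] {Ω : Type} [Field Ω] {C : CycData Ω}
    (S : Splitting C) : Prop where
  pos : 0 < S.m
  factors : IsFactorData p (p ^ (e * S.m)) S.F
  kunneth : ∀ n h, (∀ z i j τ, i + j = n → S.comp z n i j τ h = 0) → h = 0
  frob : ∀ z n i j τ h v, S.comp z n i j τ ((C.Fr n ^ S.m) h) v =
    S.F.G j (S.comp z n i j τ h fun a => S.F.Φ (τ a) (v a))
  divisors : ∀ c h, C.Fr (2 * c) h = ((p ^ e : ℕ) : Ω) ^ c • h →
    (∀ z i j τ, i + j = 2 * c → S.comp z (2 * c) i j τ h ∈ S.products (p ^ (e * S.m)) c i j τ) →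
    h ∈ Submodule.span Ω (Set.range (C.cl c))

/-- There is a splitting over a finite extension. -/
def IsSplit (p e : ℕ) [Fact p.Prime] {Ω : Type} [Field Ω] (C : CycData Ω) : Prop :=
  ∃ S : Splitting C, IsSplitting p e S

end

end Pool.Agent.KS6_19.GF.Bun
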