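import Pool.Agent.KS6_19.GF.SplitDefs
import Pool.Agent.KS6_5.OC.Pairs

/-!
# Slopes
-/

set_option autoImplicit false
set_option linter.unusedSectionVars false

namespace Pool.Agent.KS6_19.GF.Bun

open Polynomial Module Pool.Agent.KS6_5.OC

noncomputable section

variable {p : ℕ} [Fact p.Prime]

/-- the absolute values of Weil numbers of weight one. -/
theorem norm_root {a : ℕ} {R : ℤ[X]} (hR : R.Monic)
    (hw : ∀ z : AlgebraicClosure ℚ, aeval z R = 0 → ∀ φ : AlgebraicClosure ℚ →+* ℂ,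
      ‖φ z‖ ^ 2 = ((p ^ a : ℕ) : ℝ)) {z : AlgebraicClosure ℚ} (hz : aeval z R = 0)
    (l : AlgebraicClosure ℚ →+* PadicAlgCl p) :
    ‖l z‖ ≤ 1 ∧ ((p ^ a : ℕ) : ℝ)⁻¹ ≤ ‖l z‖ := by
  have hint : ∀ y : AlgebraicClosure ℚ, aeval y R = 0 → ‖l y‖ ≤ 1 := by
    intro y hy
    apply Pool.Agent.W902.TB.norm_le_one_of_isIntegral
    have h1 : IsIntegral ℤ y := ⟨R, hR, by rwa [← aeval_def]⟩
    exact h1.map l.toIntAlgHom
  refine ⟨hint z hz, ?_⟩
  obtain ⟨φ⟩ : Nonempty (AlgebraicClosure ℚ →ₐ[ℚ] ℂ) := ⟨IsAlgClosed.lift⟩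
  have hq0 : ((p ^ a : ℕ) : ℝ) ≠ 0 :=
    Nat.cast_ne_zero.2 (pow_ne_zero _ (Fact.out : p.Prime).ne_zero)
  have hqQ : ((p ^ a : ℕ) : AlgebraicClosure ℚ) ≠ 0 :=
    Nat.cast_ne_zero.2 (pow_ne_zero _ (Fact.out : p.Prime).ne_zero)
  have hz0 : z ≠ 0 := by
    rintro rfl
    have h1 := hw 0 hz φ.toRingHom
    rw [map_zero, norm_zero] at h1
    rw [zero_pow two_ne_zero] at h1
    exact hq0 h1.symm
  have hconj : (starRingEnd ℂ) (φ z) = φ (((p ^ a : ℕ) : AlgebraicClosure ℚ) / z) := by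
    have hφz : φ z ≠ 0 := (_root_.map_ne_zero φ).2 hz0
    rw [map_div₀, map_natCast, eq_div_iff hφz, mul_comm, Complex.mul_conj, Complex.normSq_eq_norm_sq]
    have h1 := hw z hz φ.toRingHom
    have h2 : ‖φ z‖ ^ 2 = ((p ^ a : ℕ) : ℝ) := h1
    rw [h2]
    push_cast
    rfl
  have hroot : aeval (((p ^ a : ℕ) : AlgebraicClosure ℚ) / z) R = 0 := by
    apply φ.toRingHom.injective
    have h1 : aeval (φ (((p ^ a : ℕ) : AlgebraicClosure ℚ) / z)) R = 0 := by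
      rw [← hconj]
      have h2 : aeval ((starRingEnd ℂ) (φ z)) R = (starRingEnd ℂ) (aeval (φ z) R) := by
        rw [aeval_def, aeval_def, Polynomial.hom_eval₂]
        congr 1
        exact Subsingleton.elim _ _
      have h3 : aeval (φ z) R = φ (aeval z R) := by
        rw [aeval_def, aeval_def]
        change _ = φ.toRingHom _
        rw [Polynomial.hom_eval₂]
        congr 1
        exact Subsingleton.elim _ _
      rw [h2, h3, hz, map_zero, map_zero]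
    have h3 : aeval (φ (((p ^ a : ℕ) : AlgebraicClosure ℚ) / z)) R =
        φ (aeval (((p ^ a : ℕ) : AlgebraicClosure ℚ) / z) R) := by
      rw [aeval_def, aeval_def]
      change _ = φ.toRingHom _
      rw [Polynomial.hom_eval₂]
      congr 1
      exact Subsingleton.elim _ _
    rw [h1] at h3
    rw [map_zero]
    exact h3.symm
  have h1 := hint _ hroot
  rw [map_div₀, map_natCast, norm_div, norm_q] at h1
  have hlz : 0 < ‖l z‖ := norm_pos_iff.2 ((_root_.map_ne_zero l).2 hz0)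
  rwa [div_le_one hlz] at h1

/-- `q ^ c / λ` for a root `λ`. -/
theorem slopesWithin_curve {a : ℕ} {R : ℤ[X]} (hR : R.Monic)
    (hw : ∀ z : AlgebraicClosure ℚ, aeval z R = 0 → ∀ φ : AlgebraicClosure ℚ →+* ℂ,
      ‖φ z‖ ^ 2 = ((p ^ a : ℕ) : ℝ)) {Ω : Type} [Field Ω] [CharZero Ω] [IsAlgClosed Ω]
    (c : ℕ) (μ : Ω) (hμ : aeval μ R = 0) :
    SlopesWithin p (p ^ a) 1 (((p ^ a : ℕ) : Ω) ^ c * μ⁻¹) := by
  obtain ⟨τ₀⟩ : Nonempty (AlgebraicClosure ℚ →ₐ[ℚ] Ω) := ⟨IsAlgClosed.lift⟩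
  let τ : AlgebraicClosure ℚ →+* Ω := τ₀.toRingHom
  have hne : R.map (algebraMap ℤ ℚ) ≠ 0 := (hR.map _).ne_zero
  obtain ⟨z, hz, hzμ⟩ := Pool.Agent.TH121.KT.exists_root τ hne (γ := μ) (by
    rw [Polynomial.aeval_map_algebraMap]
    exact hμ)
  rw [Polynomial.aeval_map_algebraMap] at hz
  have hqQ : ((p ^ a : ℕ) : AlgebraicClosure ℚ) ≠ 0 :=
    Nat.cast_ne_zero.2 (pow_ne_zero _ (Fact.out : p.Prime).ne_zero)
  have hq0 : (0 : ℝ) < ((p ^ a : ℕ) : ℝ) :=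
    Nat.cast_pos.2 (pow_pos (Fact.out : p.Prime).pos _)
  have hz0 : z ≠ 0 := by
    rintro rfl
    obtain ⟨φ⟩ : Nonempty (AlgebraicClosure ℚ →ₐ[ℚ] ℂ) := ⟨IsAlgClosed.lift⟩
    have h1 := hw 0 hz φ.toRingHom
    rw [map_zero, norm_zero, zero_pow two_ne_zero] at h1
    exact hq0.ne h1
  set y : AlgebraicClosure ℚ := ((p ^ a : ℕ) : AlgebraicClosure ℚ) ^ c * z⁻¹ with hy
  have hyβ : τ y = ((p ^ a : ℕ) : Ω) ^ c * μ⁻¹ := by
    rw [hy, map_mul, map_pow, map_inv₀, hzμ, map_natCast]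
  refine ⟨1, one_pos, minpoly ℚ y, minpoly.ne_zero (Algebra.IsIntegral.isIntegral y), ?_, ?_⟩
  · rw [pow_one, ← hyβ]
    have h1 : aeval (τ₀ y) (minpoly ℚ y) = τ₀ (aeval y (minpoly ℚ y)) := by
      rw [Polynomial.aeval_algHom_apply]
    change aeval (τ₀ y) (minpoly ℚ y) = 0
    rw [h1, minpoly.aeval, map_zero]
  · intro γ hγ
    obtain ⟨g, hg⟩ := minpoly.exists_algEquiv_of_root' (K := ℚ) (L := AlgebraicClosure ℚ)
      (x := γ) (y := y) (Algebra.IsIntegral.isIntegral y).isAlgebraic hγ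
    refine ⟨Real.log ((p ^ a : ℕ) : ℝ) / 2 - c * Real.log ((p ^ a : ℕ) : ℝ), fun l => ?_⟩
    have hgz : aeval (g z) R = 0 := by
      have h1 := Polynomial.aeval_algHom_apply (g.toAlgHom.restrictScalars ℤ) z R
      rw [hz, map_zero] at h1
      exact h1
    obtain ⟨h2, h3⟩ := norm_root hR hw hgz l
    have h4 : γ = ((p ^ a : ℕ) : AlgebraicClosure ℚ) ^ c * (g z)⁻¹ := by
      rw [← hg, hy, map_mul, map_pow, map_natCast, map_inv₀]
    have hgz0 : 0 < ‖l (g z)‖ := lt_of_lt_of_le (inv_pos.2 hq0) h3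
    have h5 : Real.log ‖l γ‖ = - (c * Real.log ((p ^ a : ℕ) : ℝ)) - Real.log ‖l (g z)‖ := by
      rw [h4, map_mul, map_pow, map_natCast, map_inv₀, norm_mul, norm_pow, norm_inv, norm_q,
        Real.log_mul (pow_ne_zero _ (inv_ne_zero hq0.ne')) (inv_ne_zero hgz0.ne'), Real.log_pow,
        Real.log_inv, Real.log_inv]
      ring
    have h6 : Real.log ‖l (g z)‖ ≤ 0 := Real.log_nonpos hgz0.le h2
    have h7 : -Real.log ((p ^ a : ℕ) : ℝ) ≤ Real.log ‖l (g z)‖ := by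
      rw [← Real.log_inv]
      exact Real.log_le_log (inv_pos.2 hq0) h3
    rw [h5]
    have h8 : |-(↑c * Real.log ((p ^ a : ℕ) : ℝ)) - Real.log ‖l (g z)‖ -
        (Real.log ((p ^ a : ℕ) : ℝ) / 2 - ↑c * Real.log ((p ^ a : ℕ) : ℝ))| ≤
        Real.log ((p ^ a : ℕ) : ℝ) / 2 := by
      rw [abs_le]
      constructor <;> linarith
    push_cast at h8 ⊢
    linarith

/-- powers of `q`. -/
theorem slopesWithin_power {a : ℕ} {Ω : Type} [Field Ω] [CharZero Ω] [IsAlgClosed Ω] (z : ℤ) :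
    SlopesWithin p (p ^ a) 0 (((p ^ a : ℕ) : Ω) ^ z) := by
  have hqQ : ((p ^ a : ℕ) : ℚ) ≠ 0 :=
    Nat.cast_ne_zero.2 (pow_ne_zero _ (Fact.out : p.Prime).ne_zero)
  refine ⟨1, one_pos, X - C (((p ^ a : ℕ) : ℚ) ^ z), X_sub_C_ne_zero _, ?_, ?_⟩
  · rw [pow_one, map_sub, aeval_X, aeval_C, map_zpow₀, map_natCast, sub_self]
  · intro γ hγ
    rw [map_sub, aeval_X, aeval_C, map_zpow₀, map_natCast, sub_eq_zero] at hγ
    refine ⟨Real.log (‖((p ^ a : ℕ) : PadicAlgCl p)‖ ^ z), fun l => ?_⟩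
    rw [hγ, map_zpow₀, map_natCast, norm_zpow, sub_self, abs_zero]
    simp

end

end Pool.Agent.KS6_19.GF.Bun
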