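import Pool.Agent.KS6_19.GF.Pure

/-!
# The t-structure
-/

set_option autoImplicit false
set_option linter.unusedSectionVars false
set_option linter.unusedVariables false

open CategoryTheory Limits Triangulated Pretriangulated ZeroObject MonoidalCategory

namespace Pool.Agent.KS6_19.GF

open Pool.Agent.W492.MT (InDeg IsSum)
open Pool.Agent.W492.TS Pool.Agent.W495.FM
open Pool.Agent.W492.PC (PureDeg RetractClosed Semisimple NegVanishing exists_filt swap_pureDeg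
  isZero_of_filt lifts_and_cons swap_aux)

universe v u v' u' v'' u'' w

noncomputable section

variable {DM : Type u} [Category.{v} DM] [HasZeroObject DM] [HasShift DM ℤ] [Preadditive DM]
  [Linear ℚ DM] [∀ n : ℤ, (shiftFunctor DM n).Additive] [Pretriangulated DM] [IsTriangulated DM]
  [IsIdempotentComplete DM]
  {L : Type w} [Nonempty L] {D : L → Type u'} [∀ ℓ, Category.{v'} (D ℓ)]
  [∀ ℓ, HasZeroObject (D ℓ)] [∀ ℓ, HasShift (D ℓ) ℤ] [∀ ℓ, Preadditive (D ℓ)]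
  [∀ ℓ, ∀ n : ℤ, (shiftFunctor (D ℓ) n).Additive] [∀ ℓ, Pretriangulated (D ℓ)]
  [∀ ℓ, IsTriangulated (D ℓ)]
  {R : ∀ ℓ, DM ⥤ D ℓ} [∀ ℓ, (R ℓ).CommShift ℤ] [∀ ℓ, (R ℓ).IsTriangulated]
  {s : ∀ ℓ, TStructure (D ℓ)} {W : Type} {obj : W → DM}
  {Ω : Type} [Field Ω] [CharZero Ω] {V : Type} {H : L → Homology Ω V} {P : L → V → Prop}
  {E : L → Type u''} [∀ ℓ, Category.{v''} (E ℓ)] [∀ ℓ, Preadditive (E ℓ)]
  [∀ ℓ, Linear Ω (E ℓ)] {F : ∀ ℓ, D ℓ ⥤ E ℓ} [∀ ℓ, (F ℓ).Additive]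
  {fr : ∀ (ℓ : L) (X Y : D ℓ), ((F ℓ).obj X ⟶ (F ℓ).obj Y) → ((F ℓ).obj X ⟶ (F ℓ).obj Y)}
  {d : ℤ}

theorem sorted (hG : IsGeometric R s obj H P F fr d) (hH : ∀ ℓ, IsHomology (H ℓ))
    (hP : ∀ ℓ X, P ℓ X → TB (H ℓ) X) (M : DM) :
    ∃ l : List ℤ, l.Pairwise (· ≤ ·) ∧ Filt (PureDeg (𝒲 R s obj)) l M := by
  obtain ⟨l, hl⟩ := exists_filt (pure_retractClosed (R := R) (s := s) (obj := obj))
    (generated hG) M
  exact ⟨_, List.pairwise_insertionSort _ _, Filt.sort (swap_pureDeg pure_retractClosed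
    (semisimple hG hH hP) (negVanishing hG hH hP)) l hl⟩

theorem liftsAndCons (hG : IsGeometric R s obj H P F fr d) (hH : ∀ ℓ, IsHomology (H ℓ))
    (hP : ∀ ℓ X, P ℓ X → TB (H ℓ) X) :
    JointlyConservative R ∧ ∀ M : DM, LiftsAt R s 0 M :=
  lifts_and_cons (𝒲 := 𝒲 R s obj) pure_retractClosed (fun w X h => pure_rdeg h) (generated hG)
    (fun w X hX hR => isZero_of_one hG hH hP (Classical.arbitrary L) hX (hR _))
    (semisimple hG hH hP) (negVanishing hG hH hP)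

theorem isZero_one (hG : IsGeometric R s obj H P F fr d) (hH : ∀ ℓ, IsHomology (H ℓ))
    (hP : ∀ ℓ X, P ℓ X → TB (H ℓ) X) (ℓ : L) (X : DM) (h : IsZero ((R ℓ).obj X)) : IsZero X := by
  obtain ⟨l, hl, hX⟩ := sorted hG hH hP X
  refine isZero_of_filt (R := fun _ : Unit => R ℓ) (s := fun _ : Unit => s ℓ)
    (𝒲 := 𝒲 R s obj) (fun w Y hY => ?_) (fun w Y hY hR => ?_) hl hX fun _ => h
  · exact ⟨fun _ => (pure_rdeg hY).1 ℓ, fun _ => (pure_rdeg hY).2 ℓ⟩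
  · exact isZero_of_one hG hH hP ℓ hY (hR ())

theorem pureDeg_zero {X : DM} (h : PureDeg (𝒲 R s obj) 0 X) : ∃ w, 𝒲 R s obj w X := by
  obtain ⟨w, hw⟩ := h
  exact ⟨w, pure_retractClosed w _ _ hw ⟨Retract.ofIso ((shiftFunctorZero DM ℤ).app X).symm⟩⟩

/-- objects of the heart are iterated extensions of pure objects. -/
theorem heart_filt (hG : IsGeometric R s obj H P F fr d) (hH : ∀ ℓ, IsHomology (H ℓ))
    (hP : ∀ ℓ X, P ℓ X → TB (H ℓ) X) {M : DM} (h1 : RLE R s 0 M) (h2 : RGE R s 0 M) :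
    ∃ l : List ℤ, (∀ n ∈ l, n = 0) ∧ Filt (PureDeg (𝒲 R s obj)) l M := by
  obtain ⟨hcons, -⟩ := liftsAndCons hG hH hP
  obtain ⟨l, hl, hM⟩ := sorted hG hH hP M
  have hfilt : ∀ (l : List ℤ) (X : DM), Filt (PureDeg (𝒲 R s obj)) l X →
      Filt (RDeg R s) l X := by
    intro l
    induction l with
    | nil => exact fun X hX => hX
    | cons n l ih =>
      rintro X ⟨A, B, f, g, h, hT, hA, hB⟩
      exact ⟨A, B, f, g, h, hT, PureDeg.rdeg (fun w X h => pure_rdeg h) hA, ih _ hB⟩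
  obtain ⟨a, b, hab, ha, hb⟩ := exists_split_sorted (-1) l hl
  rw [hab] at hM hl
  obtain ⟨X, Z, f, g, h, hT, hX, hZ⟩ := hM.split
  have hX1 : RLE R s (-1) X := Filt.RLE ha (hfilt _ _ hX)
  have hZ1 : RGE R s 0 Z := Filt.RGE (fun n hn => by have := hb n hn; omega) (hfilt _ _ hZ)
  have hX2 : RGE R s 0 X := RGE.obj₁ hT h2 (hZ1.anti (by omega))
  have hX0 : IsZero X := isZero_of_RLE_RGE hcons (by omega) hX1 hX2
  have hiso : IsIso g := (Triangle.isZero₁_iff_isIso₂ _ hT).1 hX0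
  have hZ2 : RLE R s 0 Z := RLE.of_iso (asIso g) h1
  obtain ⟨c, e, hce, hc, he⟩ := exists_split_sorted 0 b (List.pairwise_append.1 hl).2.1
  rw [hce] at hZ
  obtain ⟨X', Z', f', g', h', hT', hX', hZ'⟩ := hZ.split
  have hZ1' : RGE R s 1 Z' := Filt.RGE he (hfilt _ _ hZ')
  have hX1' : RLE R s 0 X' := Filt.RLE hc (hfilt _ _ hX')
  have hZ2' : RLE R s 0 Z' := RLE.obj₃ hT' (hX1'.mono (by omega)) hZ2
  have hZ0' : IsZero Z' := isZero_of_RLE_RGE hcons (by omega) hZ2' hZ1'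
  have hiso' : IsIso f' := (Triangle.isZero₃_iff_isIso₁ _ hT').1 hZ0'
  refine ⟨c, fun n hn => ?_, (hX'.of_iso (asIso f')).of_iso (asIso g).symm⟩
  have h3 := hc n hn
  have h4 := hb n (by rw [hce]; exact List.mem_append_left _ hn)
  omega

/-- morphisms between objects of the heart of large degree -/
theorem heart_hom_zero (hG : IsGeometric R s obj H P F fr d) (hH : ∀ ℓ, IsHomology (H ℓ))
    (hP : ∀ ℓ X, P ℓ X → TB (H ℓ) X) {M N : DM} (h1 : RLE R s 0 M) (h2 : RGE R s 0 M)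
    (h3 : RLE R s 0 N) (h4 : RGE R s 0 N) (n : ℤ) (hn : d < n) (f : M ⟶ N⟦n⟧) : f = 0 := by
  obtain ⟨l, hl, hM⟩ := heart_filt hG hH hP h1 h2
  obtain ⟨l', hl', hN⟩ := heart_filt hG hH hP h3 h4
  -- the second variable
  have hstep : ∀ X : DM, (∃ w, 𝒲 R s obj w X) → ∀ f : X ⟶ N⟦n⟧, f = 0 := by
    rintro X ⟨v, hX⟩
    refine Filt.of_forall (P := fun N : DM => ∀ f : X ⟶ N⟦n⟧, f = 0) ?_ ?_ ?_ hN
    · intro Y hY f
      exact ((shiftFunctor DM n).map_isZero hY).eq_of_tgt _ _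
    · intro A B C a b c hT hA hC f
      have hT' := Triangle.shift_distinguished _ hT n
      obtain ⟨f', hf'⟩ := Triangle.coyoneda_exact₂ _ hT' f (hC _)
      rw [hf', hA f']
      exact zero_comp
    · intro k hk Y hY f
      rw [hl' k hk] at hY
      obtain ⟨w, hw⟩ := pureDeg_zero hY
      exact hom_zero hG hH hP hX hw n (Or.inl hn) f
  refine Filt.of_forall (P := fun M : DM => ∀ f : M ⟶ N⟦n⟧, f = 0) ?_ ?_ ?_ hM f
  · intro Y hY f
    exact hY.eq_of_src _ _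
  · intro A B C a b c hT hA hC f
    obtain ⟨f', hf'⟩ := Triangle.yoneda_exact₂ _ hT f (hA _)
    rw [hf', hC f']
    exact comp_zero
  · intro k hk Y hY f
    rw [hl k hk] at hY
    exact hstep Y (pureDeg_zero hY) f

theorem swap_weights (hG : IsGeometric R s obj H P F fr d) (hH : ∀ ℓ, IsHomology (H ℓ))
    (hP : ∀ ℓ X, P ℓ X → TB (H ℓ) X) : Swap (𝒲 R s obj) := by
  intro n m hnm X M Y f g h hT hX hY
  have h0 : h = 0 := hom_zero hG hH hP hY hX 1 (Or.inr (by omega)) h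
  obtain ⟨P', Q, p, q, r, hT', hP', ⟨rQ⟩, -⟩ := swap_aux hT 0 (by rw [h0, zero_comp])
  refine ⟨P', Q, p, q, r, hT', pure_retractClosed n _ _ hY hP', ?_⟩
  apply pure_retractClosed m _ _ hX
  exact ⟨(Retract.ofIso ((shiftEquiv DM (1 : ℤ)).unitIso.app Q)).trans
    ((rQ.map (shiftFunctor DM (-1 : ℤ))).trans
      (Retract.ofIso ((shiftEquiv DM (1 : ℤ)).unitIso.app X).symm))⟩

theorem heart_weights (hG : IsGeometric R s obj H P F fr d) (hH : ∀ ℓ, IsHomology (H ℓ))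
    (hP : ∀ ℓ X, P ℓ X → TB (H ℓ) X) {M : DM} (h1 : RLE R s 0 M) (h2 : RGE R s 0 M) :
    ∃ l : List ℤ, l.Pairwise (· ≤ ·) ∧ Filt (𝒲 R s obj) l M := by
  obtain ⟨l, hl, hM⟩ := heart_filt hG hH hP h1 h2
  have hstep : ∀ (l : List ℤ) (M : DM), (∀ n ∈ l, n = 0) → Filt (PureDeg (𝒲 R s obj)) l M →
      ∃ l', Filt (𝒲 R s obj) l' M := by
    intro l
    induction l with
    | nil => exact fun M _ hM => ⟨[], hM⟩
    | cons n l ih =>
      rintro M hl ⟨A, B, f, g, h, hT, hA, hB⟩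
      obtain ⟨l', hB'⟩ := ih B (fun k hk => hl k (List.mem_cons_of_mem _ hk)) hB
      rw [hl n List.mem_cons_self] at hA
      obtain ⟨w, hw⟩ := pureDeg_zero hA
      exact ⟨w :: l', A, B, f, g, h, hT, hw, hB'⟩
  obtain ⟨l', hl'⟩ := hstep l M hl hM
  exact ⟨_, List.pairwise_insertionSort _ _, Filt.sort (swap_weights hG hH hP) l' hl'⟩

theorem rle_exists (hG : IsGeometric R s obj H P F fr d) (hH : ∀ ℓ, IsHomology (H ℓ))
    (hP : ∀ ℓ X, P ℓ X → TB (H ℓ) X) (M : DM) : (∃ b, RLE R s b M) ∧ ∃ a, RGE R s a M := by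
  obtain ⟨l, -, hM⟩ := sorted hG hH hP M
  constructor
  · refine Filt.of_forall (P := fun M : DM => ∃ b, RLE R s b M) ?_ ?_ ?_ hM
    · exact fun Y hY => ⟨0, fun i => ((s i).isLE_of_isZero ((R i).map_isZero hY) 0).le⟩
    · rintro X Y Z f g h hT ⟨a, ha⟩ ⟨b, hb⟩
      exact ⟨max a b, RLE.obj₂ hT (ha.mono (le_max_left _ _)) (hb.mono (le_max_right _ _))⟩
    · exact fun n _ Y hY => ⟨n, (PureDeg.rdeg (fun w X h => pure_rdeg h) hY).1⟩
  · refine Filt.of_forall (P := fun M : DM => ∃ b, RGE R s b M) ?_ ?_ ?_ hM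
    · exact fun Y hY => ⟨0, fun i => ((s i).isGE_of_isZero ((R i).map_isZero hY) 0).ge⟩
    · rintro X Y Z f g h hT ⟨a, ha⟩ ⟨b, hb⟩
      exact ⟨min a b, RGE.obj₂ hT (ha.anti (min_le_left _ _)) (hb.anti (min_le_right _ _))⟩
    · exact fun n _ Y hY => ⟨n, (PureDeg.rdeg (fun w X h => pure_rdeg h) hY).2⟩

variable [MonoidalCategory DM] [∀ ℓ, MonoidalCategory (D ℓ)] [∀ ℓ, (R ℓ).Monoidal]

/-- **The motivic t-structure**. -/
theorem exists_motivic (hs : ∀ ℓ, Pool.Agent.W492.MT.TensorExact (s ℓ))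
    (hG : IsGeometric R s obj H P F fr d) (hH : ∀ ℓ, IsHomology (H ℓ))
    (hP : ∀ ℓ X, P ℓ X → TB (H ℓ) X) : ∃ t : TStructure DM, IsMotivic R s obj d t := by
  obtain ⟨hcons, hl⟩ := liftsAndCons hG hH hP
  let t : TStructure DM := liftTStructure hcons hl
  have hb := rle_exists hG hH hP
  refine ⟨t, ?_⟩
  constructor
  · exact fun X => hb X
  · refine ⟨fun X hX => ?_, fun X hX => ?_⟩
    · obtain ⟨a, ha⟩ := (hb X).2
      exact isZero_of_RLE_RGE hcons (n := a - 1) (by omega) (hX _) ha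
    · obtain ⟨b, hb'⟩ := (hb X).1
      exact isZero_of_RLE_RGE hcons (m := b + 1) (by omega) hb' (hX _)
  · exact fun X Y =>
      ⟨fun hX hY i => ((s i).le 0).prop_of_iso (Functor.Monoidal.μIso (R i) X Y)
          ((hs i _ _).1 (hX i) (hY i)),
        fun hX hY i => ((s i).ge 0).prop_of_iso (Functor.Monoidal.μIso (R i) X Y)
          ((hs i _ _).2 (hX i) (hY i))⟩
  · exact fun ℓ => reflects_of_isZero (R ℓ) (isZero_one hG hH hP ℓ)
  · exact fun ℓ n M => ⟨⟨fun h => h ℓ, RLE_of_one hl ℓ (isZero_one hG hH hP ℓ)⟩,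
      ⟨fun h => h ℓ, RGE_of_one hl ℓ (isZero_one hG hH hP ℓ)⟩⟩
  · exact fun M N h1 h2 h3 h4 n hn f => heart_hom_zero hG hH hP h1 h2 h3 h4 n hn f
  · exact fun v w M N hM hN n hn f => hom_zero hG hH hP hM hN n (Or.inr hn) f
  · exact fun v w M N hM hN f => semisimple hG hH hP v w M N hM hN f
  · exact fun M h1 h2 => heart_weights hG hH hP h1 h2

end

end Pool.Agent.KS6_19.GF
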